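import Pool.Agent.H52R.Step

set_option autoImplicit false

namespace Pool.Agent.H52R

theorem le_of_sq_le_sq {a b : ℚ} (h : a ^ 2 ≤ b ^ 2) (hb : 0 ≤ b) : a ≤ b :=
  (abs_le_of_sq_le_sq' h hb).2

/-- difference of two axis points in terms of the parameters -/
theorem x_diff {A t t₃ : ℚ} (ht : t ≠ 0) (ht3 : t₃ ≠ 0) :
    (A / t₃ - t₃) / 2 - (A / t - t) / 2 = -(1 / 2) * (t₃ - t) * (1 + A / (t * t₃)) := by
  field_simp
  ring

/-- Bounds on parameters of good points -/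
theorem good_bounds {A B c x H M : ℚ} (hH : 1 ≤ H) (hA : 0 < A) (hB : 0 < B)
    (hAH : A ≤ H) (hBH : B ≤ H) (hcH : |c| ≤ H) (hA' : 1 ≤ H * A) (hB' : 1 ≤ H * B)
    (hx : |x| ≤ M) (hg : Good A B c x) :
    ∃ t s : ℚ, On A B c t s ∧ 0 < t ∧ 0 < s ∧ x = (A / t - t) / 2 ∧
      t ≤ H * (2 * M + 3 * H) ∧ s ≤ H * (2 * M + 3 * H) ∧
      1 ≤ (H * (2 * M + 3 * H)) * t ∧ 1 ≤ (H * (2 * M + 3 * H)) * s ∧
      B / s ≤ H * (2 * M + 3 * H) ∧ 1 ≤ (H * (2 * M + 3 * H)) * (B / s) := by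
  obtain ⟨u, v, hu0, hv0, hu, hv⟩ := hg.point hA hB
  obtain ⟨hOn, ht, hs, hx'⟩ := on_of_uv hA hB hu0 hv0 hu hv
  have hM : 0 ≤ M := (abs_nonneg x).trans hx
  have hx1 : x ≤ M := (le_abs_self x).trans hx
  have hx2 : -M ≤ x := by linarith [neg_abs_le x]
  have hc1 : c ≤ H := (le_abs_self c).trans hcH
  have hc2 : -H ≤ c := by linarith [neg_abs_le c]
  have hH0 : 0 < H := by linarith
  have hu2 : u ≤ M + H := by
    have h1 : u ^ 2 ≤ (M + H) ^ 2 := by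
      rw [← hu]
      nlinarith
    exact le_of_sq_le_sq h1 (by linarith) 
  have hxc : |x - c| ≤ M + H := (abs_sub x c).trans (by linarith)
  have hv2 : v ≤ M + 2 * H := by
    have h1 : v ^ 2 ≤ (M + 2 * H) ^ 2 := by
      rw [← hv]
      have h2 : (x - c) ^ 2 ≤ (M + H) ^ 2 := sq_le_sq' (by linarith [neg_abs_le (x - c)])
        (by linarith [le_abs_self (x - c)])
      nlinarith
    exact le_of_sq_le_sq h1 (by linarith)
  have hZ : 2 * M + 3 * H ≤ H * (2 * M + 3 * H) := le_mul_of_one_le_left (by linarith) hH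
  have e1 : (u - x) * (u + x) = A := by linear_combination -hu
  have e2 : (v + (x - c)) * (v - (x - c)) = B := by linear_combination -hv
  have e3 : B / (v + (x - c)) = v - (x - c) := by
    rw [div_eq_iff hs.ne', ← e2]; ring
  have hxc1 := (abs_le.mp hxc).1
  have hxc2 := (abs_le.mp hxc).2
  refine ⟨_, _, hOn, ht, hs, hx', ?_, ?_, ?_, ?_, ?_, ?_⟩
  · linarith
  · linarith
  · have h2 : u + x ≤ 2 * M + 3 * H := by linarith
    have h4 : A ≤ (u - x) * (2 * M + 3 * H) := by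
      rw [← e1]; exact mul_le_mul_of_nonneg_left h2 ht.le
    have h5 : H * A ≤ H * ((u - x) * (2 * M + 3 * H)) := mul_le_mul_of_nonneg_left h4 hH0.le
    linarith
  · have h2 : v - (x - c) ≤ 2 * M + 3 * H := by linarith
    have h4 : B ≤ (v + (x - c)) * (2 * M + 3 * H) := by
      rw [← e2]; exact mul_le_mul_of_nonneg_left h2 hs.le
    have h5 : H * B ≤ H * ((v + (x - c)) * (2 * M + 3 * H)) := mul_le_mul_of_nonneg_left h4 hH0.le
    linarith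
  · rw [e3]; linarith
  · rw [e3]
    have h0 : 0 ≤ v - (x - c) := by rw [← e3]; positivity
    have h2 : v + (x - c) ≤ 2 * M + 3 * H := by linarith
    have h4 : B ≤ (2 * M + 3 * H) * (v - (x - c)) := by
      rw [← e2]; exact mul_le_mul_of_nonneg_right h2 h0
    have h5 : H * B ≤ H * ((2 * M + 3 * H) * (v - (x - c))) := mul_le_mul_of_nonneg_left h4 hH0.le
    linarith

/-- one step, at the level of the parameters (x-coordinates) -/
theorem step_x {A B c t s t₀ s₀ K ε σ₀ σ₁ p : ℚ}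
    (hσ₀ : σ₀ = 1 ∨ σ₀ = -1) (hσ₁ : σ₁ = 1 ∨ σ₁ = -1) (hK : 1 ≤ K)
    (hA : 0 < A) (hA' : A ≤ K) (hB : 0 < B) (hB' : B ≤ K)
    (ht : 0 < t) (ht' : 1 ≤ K * t) (htK : t ≤ K) (hp : 0 < p) (hp1 : 1 ≤ K * p) (hp2 : p ≤ K)
    (hs : s = σ₁ * p) (h1 : On A B c t s) (h0 : On A B c t₀ s₀)
    (h0t : 2 * K * |t₀| ≤ 1) (hε : 0 < ε) (hs0 : s₀ = σ₀ * |s₀|)
    (hS : K + 36 * K ^ 4 + 27 * K ^ 6 / ε ≤ |s₀|) :
    ∃ y : ℚ, Good A B c y ∧ 1 / (18 * K ^ 2 * (|s₀| + K)) ≤ -(σ₀ * σ₁) * (y - (A / t - t) / 2) ∧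
      -(σ₀ * σ₁) * (y - (A / t - t) / 2) ≤ ε := by
  have hK0 : 0 < K := by linarith
  have hσσ : (σ₀ * σ₁) ^ 2 = 1 := by
    rcases hσ₀ with h | h <;> rcases hσ₁ with h' | h' <;> rw [h, h'] <;> norm_num
  have h0t' : 2 * |t₀| ≤ t := by
    have : K * (2 * |t₀|) ≤ K * t := by linarith
    exact le_of_mul_le_mul_left this hK0
  have htt1 : t ≤ 2 * (t - t₀) := by linarith [le_abs_self t₀]
  have htt2 : 2 * (t - t₀) ≤ 3 * t := by linarith [neg_abs_le t₀]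
  have htt0 : 0 < t - t₀ := by linarith
  have hε' : 0 < 27 * K ^ 6 / ε := by positivity
  have hK4 : 0 < K ^ 4 := by positivity
  set w := |s₀| with hw
  have hKw : K + 36 * K ^ 4 ≤ w := by linarith
  -- |σ₀ s| ≤ K
  have hs1 : σ₀ * s ≤ K := by
    rw [hs]; rcases hσ₀ with h | h <;> rcases hσ₁ with h' | h' <;> rw [h, h'] <;> linarith
  have hs2 : -K ≤ σ₀ * s := by
    rw [hs]; rcases hσ₀ with h | h <;> rcases hσ₁ with h' | h' <;> rw [h, h'] <;> linarith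
  obtain ⟨μ, hμdef⟩ : ∃ μ : ℚ, μ = (w - σ₀ * s) / (t - t₀) := ⟨_, rfl⟩
  have hμe : μ * (t - t₀) = w - σ₀ * s := by rw [hμdef, div_mul_cancel₀ _ htt0.ne']
  have hσ₀2 : σ₀ ^ 2 = 1 := by rcases hσ₀ with h | h <;> rw [h] <;> norm_num
  have hm : s - s₀ = -σ₀ * μ * (t - t₀) := by
    rw [mul_assoc, hμe, hs0]
    linear_combination -s * hσ₀2
  have hμlo : 2 * (w - K) ≤ 3 * K * μ := by
    have h1 : w - K ≤ μ * (t - t₀) := by rw [hμe]; linarith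
    have hμ0 : 0 ≤ μ := by
      rw [hμdef]
      apply div_nonneg _ htt0.le
      linarith
    have h2 : μ * (2 * (t - t₀)) ≤ μ * (3 * K) := mul_le_mul_of_nonneg_left (by linarith) hμ0
    linarith
  have hμhi : μ ≤ 2 * K * (w + K) := by
    rw [hμdef, div_le_iff₀ htt0]
    have h2 : 1 ≤ 2 * K * (t - t₀) := by
      have : K * t ≤ K * (2 * (t - t₀)) := mul_le_mul_of_nonneg_left htt1 hK0.le
      linarith
    have h3 : 0 ≤ w + K := by linarith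
    calc w - σ₀ * s ≤ (w + K) * 1 := by linarith
      _ ≤ (w + K) * (2 * K * (t - t₀)) := mul_le_mul_of_nonneg_left h2 h3
      _ = 2 * K * (w + K) * (t - t₀) := by ring
  have hμ24 : 24 * K ^ 3 ≤ μ := by
    have h3 : K * (24 * K ^ 3) ≤ K * μ := by
      have : K * (24 * K ^ 3) = 24 * K ^ 4 := by ring
      linarith
    exact le_of_mul_le_mul_left h3 hK0
  have hμε : 18 * K ^ 5 ≤ ε * μ := by
    have h4 : 27 * K ^ 6 / ε ≤ w - K := by linarith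
    have h5 : 27 * K ^ 6 ≤ (w - K) * ε := by rwa [div_le_iff₀ hε] at h4
    have h6 : K * (18 * K ^ 5) ≤ K * (ε * μ) := by
      have e : K * (18 * K ^ 5) = 18 * K ^ 6 := by ring
      have : 2 * (w - K) * ε ≤ 3 * K * μ * ε := mul_le_mul_of_nonneg_right hμlo hε.le
      rw [e]
      linarith
    exact le_of_mul_le_mul_left h6 hK0
  have hK3 : 1 ≤ K ^ 3 := one_le_pow₀ hK
  have hμ0 : 0 < μ := by linarith
  obtain ⟨t₃, s₃, hOn, hd1, hd2⟩ := step_t hσ₀ hσ₁ hK hA hA' hB hB' ht ht' hp hp1 hp2 hs h1 h0 h0t'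
    (by linarith) hm
  obtain ⟨Δ, hΔ⟩ : ∃ Δ : ℚ, Δ = σ₀ * σ₁ * (t₃ - t) := ⟨_, rfl⟩
  rw [← hΔ] at hd1 hd2
  have hΔ0 : 0 < Δ := by
    have h9 : 0 < (9 * K * μ) * Δ := by linarith
    exact pos_of_mul_pos_right h9 (by positivity)
  have ht3e : t₃ = t + σ₀ * σ₁ * Δ := by
    rw [hΔ]; linear_combination -(t₃ - t) * hσσ
  have hΔt : 2 * Δ ≤ t := by
    have h7 : 24 * K ^ 3 * Δ ≤ 12 * K ^ 2 := (mul_le_mul_of_nonneg_right hμ24 hΔ0.le).trans hd2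
    have h9 : K ^ 2 * (2 * K * Δ) ≤ K ^ 2 * 1 := by linarith
    have h10 : 2 * K * Δ ≤ 1 := le_of_mul_le_mul_left h9 (by positivity)
    have h11 : K * (2 * Δ) ≤ K * t := by linarith
    exact le_of_mul_le_mul_left h11 hK0
  have hσσ' : σ₀ * σ₁ = 1 ∨ σ₀ * σ₁ = -1 := by
    rcases hσ₀ with h | h <;> rcases hσ₁ with h' | h' <;> rw [h, h'] <;> norm_num
  have ht3lo : t ≤ 2 * t₃ := by
    rw [ht3e]; rcases hσσ' with h | h <;> rw [h] <;> linarith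
  have ht30 : 0 < t₃ := by linarith
  refine ⟨(A / t₃ - t₃) / 2, hOn.good, ?_⟩
  rw [x_diff ht.ne' ht30.ne']
  have e : -(σ₀ * σ₁) * (-(1 / 2) * (t₃ - t) * (1 + A / (t * t₃))) =
      (1 / 2) * Δ * (1 + A / (t * t₃)) := by rw [hΔ]; ring
  rw [e]
  have hq0 : 0 < A / (t * t₃) := by positivity
  have hq1 : A / (t * t₃) ≤ 2 * K ^ 3 := by
    rw [div_le_iff₀ (by positivity)]
    have : 1 ≤ (K * t) * (K * (2 * t₃)) := by
      have h1 : 1 ≤ K * (2 * t₃) := ht'.trans (mul_le_mul_of_nonneg_left ht3lo hK0.le)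
      calc (1:ℚ) = 1 * 1 := by norm_num
        _ ≤ _ := mul_le_mul ht' h1 (by norm_num) (by positivity)
    calc A ≤ K * 1 := by linarith
      _ ≤ K * ((K * t) * (K * (2 * t₃))) := mul_le_mul_of_nonneg_left this hK0.le
      _ = _ := by ring
  have hq2 : 1 + A / (t * t₃) ≤ 3 * K ^ 3 := by linarith
  have hwK : 0 < w + K := by linarith
  constructor
  · rw [div_le_iff₀ (by positivity)]
    have h1 : (1 / 2) * Δ ≤ (1 / 2) * Δ * (1 + A / (t * t₃)) :=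
      le_mul_of_one_le_right (by positivity) (by linarith)
    have h2 : (9 * K * Δ) * μ ≤ (9 * K * Δ) * (2 * K * (w + K)) :=
      mul_le_mul_of_nonneg_left hμhi (by positivity)
    have h5 : (1:ℚ) ≤ (1 / 2) * Δ * (18 * K ^ 2 * (w + K)) := by
      have : (9 * K * Δ) * (2 * K * (w + K)) = 2 * ((1 / 2) * Δ * (18 * K ^ 2 * (w + K))) := by ring
      linarith
    have h6 : (1 / 2) * Δ * (18 * K ^ 2 * (w + K)) ≤
        (1 / 2) * Δ * (1 + A / (t * t₃)) * (18 * K ^ 2 * (w + K)) :=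
      mul_le_mul_of_nonneg_right h1 (by positivity)
    linarith
  · have h1 : (1 / 2) * Δ * (1 + A / (t * t₃)) ≤ (1 / 2) * Δ * (3 * K ^ 3) :=
      mul_le_mul_of_nonneg_left hq2 (by positivity)
    refine h1.trans ?_
    have h2 : μ * ((1 / 2) * Δ * (3 * K ^ 3)) ≤ μ * ε := by
      calc μ * ((1 / 2) * Δ * (3 * K ^ 3)) = (μ * Δ) * (3 * K ^ 3 / 2) := by ring
        _ ≤ (12 * K ^ 2) * (3 * K ^ 3 / 2) := mul_le_mul_of_nonneg_right hd2 (by positivity)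
        _ = 18 * K ^ 5 := by ring
        _ ≤ ε * μ := hμε
        _ = μ * ε := by ring
    exact le_of_mul_le_mul_left h2 hμ0

/-- both directions -/
theorem steps {A B c H M x t₀ s₀ ε : ℚ} (hH : 1 ≤ H) (hA : 0 < A) (hB : 0 < B)
    (hAH : A ≤ H) (hBH : B ≤ H) (hcH : |c| ≤ H) (hA' : 1 ≤ H * A) (hB' : 1 ≤ H * B) {K : ℚ}
    (hKdef : K = H * (2 * M + 3 * H)) (hx : |x| ≤ M) (hg : Good A B c x)
    (h0 : On A B c t₀ s₀) (h0t : 2 * K * |t₀| ≤ 1) (hε : 0 < ε)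
    (hS : K + 36 * K ^ 4 + 27 * K ^ 6 / ε ≤ |s₀|) :
    (∃ y : ℚ, Good A B c y ∧ 1 / (18 * K ^ 2 * (|s₀| + K)) ≤ y - x ∧ y - x ≤ ε) ∧
    (∃ y : ℚ, Good A B c y ∧ 1 / (18 * K ^ 2 * (|s₀| + K)) ≤ x - y ∧ x - y ≤ ε) := by
  have hM : 0 ≤ M := (abs_nonneg x).trans hx
  obtain ⟨t, s, hOn, ht, hs, hx', htK, hsK, ht1, hs1, hpK, hp1⟩ :=
    good_bounds hH hA hB hAH hBH hcH hA' hB' hx hg
  rw [← hKdef] at htK hsK ht1 hs1 hpK hp1
  have hH0 : 0 < H := by linarith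
  have hHK : H ≤ K := by
    rw [hKdef]; nlinarith
  have hK1 : 1 ≤ K := by linarith
  -- sign of s₀
  obtain ⟨σ₀, hσ₀, hs0⟩ : ∃ σ₀ : ℚ, (σ₀ = 1 ∨ σ₀ = -1) ∧ s₀ = σ₀ * |s₀| := by
    rcases le_total 0 s₀ with h | h
    · exact ⟨1, Or.inl rfl, by rw [abs_of_nonneg h]; ring⟩
    · exact ⟨-1, Or.inr rfl, by rw [abs_of_nonpos h]; ring⟩
  have A1 := step_x (σ₁ := 1) (p := s) hσ₀ (Or.inl rfl) hK1 hA (hAH.trans hHK) hB (hBH.trans hHK)
    ht ht1 htK hs hs1 hsK (by ring) hOn h0 h0t hε hs0 hS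
  have B1 := step_x (σ₁ := -1) (p := B / s) (s := -B / s) hσ₀ (Or.inr rfl) hK1 hA (hAH.trans hHK) hB
    (hBH.trans hHK) ht ht1 htK (by positivity) hp1 hpK (by ring) (hOn.flip hB.ne') h0 h0t hε hs0 hS
  rw [← hx'] at A1 B1
  rcases hσ₀ with h | h <;> rw [h] at A1 B1
  · obtain ⟨y, hy, h1, h2⟩ := A1
    obtain ⟨y', hy', h1', h2'⟩ := B1
    exact ⟨⟨y', hy', by linarith, by linarith⟩, ⟨y, hy, by linarith, by linarith⟩⟩
  · obtain ⟨y, hy, h1, h2⟩ := A1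
    obtain ⟨y', hy', h1', h2'⟩ := B1
    exact ⟨⟨y, hy, by linarith, by linarith⟩, ⟨y', hy', by linarith, by linarith⟩⟩

/-- abstract chain lemma: upwards -/
theorem chain_up {G : ℚ → Prop} {M ε d : ℚ} (hd : 0 < d)
    (hup : ∀ x, G x → |x| ≤ M → ∃ y, G y ∧ d ≤ y - x ∧ y - x ≤ ε)
    {x₀ y : ℚ} (hG : G x₀) (hx₀ : |x₀| ≤ M) (hy : |y| ≤ M) (hle : x₀ ≤ y) :
    ∃ x, G x ∧ |x - y| ≤ ε := by
  by_contra hcon
  push Not at hcon
  have key : ∀ n : ℕ, ∃ x, G x ∧ x₀ + n * d ≤ x ∧ x ≤ y := by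
    intro n
    induction n with
    | zero => exact ⟨x₀, hG, by simp, hle⟩
    | succ n ih =>
      obtain ⟨x, hx, h1, h2⟩ := ih
      have hx1 : x₀ ≤ x := by
        have : (0:ℚ) ≤ n * d := by positivity
        linarith
      have hxM : |x| ≤ M := by
        rw [abs_le] at *
        constructor <;> linarith [hx₀.1, hy.2]
      obtain ⟨z, hz, hz1, hz2⟩ := hup x hx hxM
      have h3 := hcon x hx
      rw [abs_of_nonpos (by linarith)] at h3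
      refine ⟨z, hz, ?_, ?_⟩
      · push_cast
        linarith
      · linarith
  obtain ⟨n, hn⟩ := exists_nat_gt ((y - x₀) / d)
  obtain ⟨x, _, h1, h2⟩ := key n
  rw [div_lt_iff₀ hd] at hn
  linarith

theorem chain {G : ℚ → Prop} {M ε d : ℚ} (hd : 0 < d)
    (hup : ∀ x, G x → |x| ≤ M → ∃ y, G y ∧ d ≤ y - x ∧ y - x ≤ ε)
    (hdn : ∀ x, G x → |x| ≤ M → ∃ y, G y ∧ d ≤ x - y ∧ x - y ≤ ε)
    {x₀ y : ℚ} (hG : G x₀) (hx₀ : |x₀| ≤ M) (hy : |y| ≤ M) :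
    ∃ x, G x ∧ |x - y| ≤ ε := by
  rcases le_total x₀ y with hle | hle
  · exact chain_up hd hup hG hx₀ hy hle
  · obtain ⟨x, hx, h⟩ := chain_up (G := fun z => G (-z)) (M := M) (ε := ε) (d := d) hd
      (by
        intro z hz hzM
        obtain ⟨w, hw, h1, h2⟩ := hdn (-z) hz (by rwa [abs_neg])
        exact ⟨-w, by simpa using hw, by linarith, by linarith⟩)
      (x₀ := -x₀) (y := -y) (by simpa using hG) (by rwa [abs_neg]) (by rwa [abs_neg]) (by linarith)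
    refine ⟨-x, hx, ?_⟩
    have : -x - y = -(x - -y) := by ring
    rw [this, abs_neg]
    exact h

/-- From an auxiliary point near infinity, the good points are dense. -/
theorem dense_of_aux {A B c H M t₀ s₀ ε x₀ : ℚ} (hH : 1 ≤ H) (hA : 0 < A) (hB : 0 < B)
    (hAH : A ≤ H) (hBH : B ≤ H) (hcH : |c| ≤ H) (hA' : 1 ≤ H * A) (hB' : 1 ≤ H * B) {K : ℚ}
    (hKdef : K = H * (2 * M + 3 * H))
    (h0 : On A B c t₀ s₀) (h0t : 2 * K * |t₀| ≤ 1) (hε : 0 < ε)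
    (hS : K + 36 * K ^ 4 + 27 * K ^ 6 / ε ≤ |s₀|)
    (hg : Good A B c x₀) (hx₀ : |x₀| ≤ M) {y : ℚ} (hy : |y| ≤ M) :
    ∃ x, Good A B c x ∧ |x - y| ≤ ε := by
  have hM : 0 ≤ M := (abs_nonneg y).trans hy
  have hK : 0 < K := by
    rw [hKdef]; positivity
  have hd : 0 < 1 / (18 * K ^ 2 * (|s₀| + K)) := by positivity
  exact chain hd
    (fun x hx hxM => (steps hH hA hB hAH hBH hcH hA' hB' hKdef hxM hx h0 h0t hε hS).1)
    (fun x hx hxM => (steps hH hA hB hAH hBH hcH hA' hB' hKdef hxM hx h0 h0t hε hS).2) hg hx₀ hy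

end Pool.Agent.H52R
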