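import Pool.Agent.H52R.Geom

set_option autoImplicit false

open scoped RealInnerProductSpace

namespace Pool.Agent.H52R

variable {E : Type*} [NormedAddCommGroup E] [InnerProductSpace ℝ E]

theorem rat_of_sq {x : ℝ} (hx : 0 ≤ x) {r : ℚ} (h : x ^ 2 = (r : ℝ) ^ 2) : ∃ r : ℚ, x = r := by
  refine ⟨|r|, ?_⟩
  rw [Rat.cast_abs]
  have h2 : x ^ 2 = |(r:ℝ)| ^ 2 := by rw [sq_abs]; exact h
  exact (sq_eq_sq₀ hx (abs_nonneg _)).mp h2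

theorem norm_sub_smul_sq (x y : E) (z : ℝ) :
    ‖x - z • y‖ ^ 2 = ‖x‖ ^ 2 - 2 * z * ⟪x, y⟫ + z ^ 2 * ‖y‖ ^ 2 := by
  rw [norm_sub_sq_real, norm_smul, inner_smul_right, mul_pow, Real.norm_eq_abs, sq_abs]
  ring

theorem gram_pos {e₁ e₂ : E} (hG : ⟪e₁, e₂⟫ ^ 2 < ‖e₁‖ ^ 2 * ‖e₂‖ ^ 2) (z : ℝ) :
    0 < ‖e₁ - z • e₂‖ := by
  rw [norm_pos_iff]
  intro h
  have h1 : e₁ = z • e₂ := sub_eq_zero.mp h
  rw [h1, inner_smul_left, real_inner_self_eq_norm_sq, norm_smul, Real.norm_eq_abs] at hG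
  simp only [conj_trivial] at hG
  have h2 : (|z| * ‖e₂‖) ^ 2 = z ^ 2 * ‖e₂‖ ^ 2 := by rw [mul_pow, sq_abs]
  rw [h2] at hG
  nlinarith

theorem cont_side {ρ v₁ n τ₁ : ℝ} (hτ : τ₁ ≠ 0) :
    ContinuousAt (fun x : ℝ × ℝ × ℝ =>
      (x.2.1 * (x.1 * x.2.2 + ρ / x.2.2), x.2.1 * (x.1 + 1),
        x.2.1 * (x.1 * (1 + x.2.2) - (1 + ρ / x.2.2)))) (v₁, n, τ₁) := by
  have c : ContinuousAt (fun x : ℝ × ℝ × ℝ => ρ / x.2.2) (v₁, n, τ₁) := by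
    apply ContinuousAt.div
    · fun_prop
    · fun_prop
    · exact hτ
  apply ContinuousAt.prodMk
  · apply ContinuousAt.mul
    · fun_prop
    · apply ContinuousAt.add
      · fun_prop
      · exact c
  apply ContinuousAt.prodMk
  · fun_prop
  · apply ContinuousAt.mul
    · fun_prop
    · apply ContinuousAt.sub
      · fun_prop
      · exact continuousAt_const.add c

theorem core6 {e₁ e₂ : E} (hG : ⟪e₁, e₂⟫ ^ 2 < ‖e₁‖ ^ 2 * ‖e₂‖ ^ 2) {p ρ q : ℚ} (hp : 0 < p)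
    (hp1 : p < 1) (hρ : 1 < ρ) (hq : ρ < q) {ε : ℝ} (hε : 0 < ε) :
    ∃ f₁ f₂ : E, ‖f₁ - e₁‖ < ε ∧ ‖f₂ - e₂‖ < ε ∧ (∃ r : ℚ, ‖f₁‖ = r) ∧ (∃ r : ℚ, ‖f₂‖ = r) ∧
      (∃ r : ℚ, ‖f₁ - ((1:ℚ):ℝ) • f₂‖ = r) ∧ (∃ r : ℚ, ‖f₁ - (ρ:ℝ) • f₂‖ = r) ∧
      (∃ r : ℚ, ‖f₁ - (p:ℝ) • f₂‖ = r) ∧ (∃ r : ℚ, ‖f₁ - (q:ℝ) • f₂‖ = r) := by
  have hρ' : (1:ℝ) < ρ := by exact_mod_cast hρ
  have hU : 0 < ‖e₁‖ := by
    have := gram_pos hG 0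
    rwa [zero_smul, sub_zero] at this
  have hV : 0 < ‖e₂‖ := by
    rw [norm_pos_iff]
    rintro rfl
    simp at hG
  have hP : 0 < ‖e₁ - e₂‖ := by
    have := gram_pos hG 1
    rwa [one_smul] at this
  have hR : 0 < ‖e₁ - (ρ:ℝ) • e₂‖ := gram_pos hG ρ
  have hPw : ‖e₁ - e₂‖ ^ 2 = ‖e₁‖ ^ 2 - 2 * ⟪e₁, e₂⟫ + ‖e₂‖ ^ 2 := norm_sub_sq_real _ _
  obtain ⟨m, n, τ₁, hm, hn, hτ₁, e1, e2, e3⟩ := params hU hV hP hR hρ'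
    (by rw [norm_sub_smul_sq, hPw]; ring) (by
      have : (‖e₁‖ ^ 2 + ‖e₂‖ ^ 2 - ‖e₁ - e₂‖ ^ 2) / 2 = ⟪e₁, e₂⟫ := by rw [hPw]; ring
      rw [this]; exact hG)
  obtain ⟨δ, hδ, hreal⟩ := realise (norm_pos_iff.mp hU) hG hε
  have hc := cont_side (ρ := (ρ:ℝ)) (v₁ := m / n) (n := n) hτ₁.ne'
  obtain ⟨δ', hδ', hcl⟩ := Metric.continuousAt_iff.mp hc δ hδ
  have v1 : n * (m / n * τ₁ + ρ / τ₁) = ‖e₁‖ := by rw [e1]; field_simp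
  have v2 : n * (m / n + 1) = ‖e₂‖ := by rw [e2]; field_simp
  have v3 : n * (m / n * (1 + τ₁) - (1 + ρ / τ₁)) = ‖e₁ - e₂‖ := by rw [e3]; field_simp
  simp only [v1, v2, v3] at hcl
  obtain ⟨τ, v, hτ0, hτ, hv, ⟨r₁, hr₁⟩, ⟨r₂, hr₂⟩⟩ :=
    fam hp hp1 hρ hq (v₁ := m / n) hτ₁ hδ'
  obtain ⟨μ, hμ⟩ := exists_rat_near n hδ'
  rw [abs_sub_comm] at hμ
  have hd := hcl (x := ((v:ℝ), (μ:ℝ), (τ:ℝ))) (by
    rw [Prod.dist_eq, Prod.dist_eq]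
    simp only [max_lt_iff, Real.dist_eq]
    exact ⟨hv, hμ, hτ⟩)
  rw [Prod.dist_eq, Prod.dist_eq] at hd
  simp only [max_lt_iff, Real.dist_eq] at hd
  obtain ⟨d1, d2, d3⟩ := hd
  obtain ⟨f₁, f₂, g1, g2, g3, g4, g5⟩ := hreal _ _ _ d1 d2 d3
  have hτR : (τ:ℝ) ≠ 0 := by
    have : (0:ℝ) < τ := by exact_mod_cast hτ0
    exact this.ne'
  have hz : ∀ z : ℚ, ‖f₁ - (z:ℝ) • f₂‖ ^ 2 =
      (μ:ℝ) ^ 2 * (v ^ 2 * (z + τ) ^ 2 + (z + ρ / τ) ^ 2 + 2 * v * cz (ρ:ℝ) z τ) := by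
    intro z
    rw [norm_sub_smul_sq, g3, g4, g5]
    unfold cz
    field_simp
    ring
  have hz' : ∀ z r : ℚ, v ^ 2 * (z + τ) ^ 2 + (z + ρ / τ) ^ 2 + 2 * v * cz ρ z τ = r ^ 2 →
      ∃ r : ℚ, ‖f₁ - (z:ℝ) • f₂‖ = r := by
    intro z r hr
    apply rat_of_sq (norm_nonneg _) (r := μ * r)
    rw [hz]
    have h2 : ((v ^ 2 * (z + τ) ^ 2 + (z + ρ / τ) ^ 2 + 2 * v * cz ρ z τ : ℚ) : ℝ) = ((r ^ 2 : ℚ):ℝ) := by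
      rw [hr]
    have h3 : ((cz ρ z τ : ℚ) : ℝ) = cz (ρ:ℝ) z τ := by unfold cz; push_cast; ring
    push_cast at h2
    rw [h3] at h2
    rw [h2]
    push_cast
    ring
  refine ⟨f₁, f₂, g1, g2, ?_, ?_, ?_, ?_, hz' p r₁ hr₁, hz' q r₂ hr₂⟩
  · apply rat_of_sq (norm_nonneg _) (r := μ * (v * τ + ρ / τ))
    rw [g3]; push_cast; ring
  · apply rat_of_sq (norm_nonneg _) (r := μ * (v + 1))
    rw [g4]; push_cast; ring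
  · apply hz' 1 (v * (1 + τ) - (1 + ρ / τ))
    unfold cz
    ring
  · apply hz' ρ (v * (ρ + τ) - (ρ + ρ / τ))
    unfold cz
    have : τ ≠ 0 := hτ0.ne'
    field_simp
    ring

end Pool.Agent.H52R
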