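import Mathlib

/-!
# Two monic quadratic polynomials which are squares: the plane cubic

`Good A B c x` says that `x² + A` and `(x - c)² + B` are squares of rational numbers. With
`t = u - x`, `s = w + (x - c)`, where `u² = x² + A`, `w² = (x - c)² + B`, the good points correspond to
the rational points of the plane cubic `A s - t² s - t s² + B t - 2 c t s = 0`. The arguments follow
those of `Pool.Agent.H71R` (helper71), where `A` and `B` are squares.
-/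

set_option autoImplicit false

namespace Pool.Agent.H52R

/-- `x² + A` and `(x - c)² + B` are squares. -/
def Good (A B c x : ℚ) : Prop := (∃ u : ℚ, x ^ 2 + A = u ^ 2) ∧ ∃ w : ℚ, (x - c) ^ 2 + B = w ^ 2

/-- The plane cubic parametrising the good points. -/
def On (A B c t s : ℚ) : Prop :=
  t ≠ 0 ∧ s ≠ 0 ∧ A * s - t ^ 2 * s - t * s ^ 2 + B * t - 2 * c * t * s = 0

theorem On.good {A B c t s : ℚ} (h : On A B c t s) : Good A B c ((A / t - t) / 2) := by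
  obtain ⟨ht, hs, h⟩ := h
  refine ⟨⟨(A / t + t) / 2, ?_⟩, ⟨(s + B / s) / 2, ?_⟩⟩
  · field_simp
    ring
  · have h2 : (A / t - t) / 2 - c = (s - B / s) / 2 := by
      field_simp
      linear_combination h
    rw [h2]
    field_simp
    ring

/-- the involution `s ↦ -B/s` -/
theorem On.flip {A B c t s : ℚ} (hB : B ≠ 0) (h : On A B c t s) : On A B c t (-B / s) := by
  obtain ⟨ht, hs, h⟩ := h
  refine ⟨ht, ?_, ?_⟩
  · exact div_ne_zero (neg_ne_zero.mpr hB) hs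
  · field_simp
    linear_combination (-B : ℚ) * h

theorem On.neg {A B c t s : ℚ} (hA : A ≠ 0) (hB : B ≠ 0) (h : On A B c t s) :
    On A B c (-A / t) (-B / s) := by
  obtain ⟨ht, hs, h⟩ := h
  refine ⟨div_ne_zero (neg_ne_zero.mpr hA) ht, div_ne_zero (neg_ne_zero.mpr hB) hs, ?_⟩
  field_simp
  linear_combination (A * B) * h

theorem Good.point {A B c x : ℚ} (hA : 0 < A) (hB : 0 < B) (h : Good A B c x) :
    ∃ u w : ℚ, 0 < u ∧ 0 < w ∧ x ^ 2 + A = u ^ 2 ∧ (x - c) ^ 2 + B = w ^ 2 := by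
  obtain ⟨⟨u, hu⟩, ⟨v, hv⟩⟩ := h
  refine ⟨|u|, |v|, ?_, ?_, ?_, ?_⟩
  · apply abs_pos.mpr
    rintro rfl
    nlinarith [sq_nonneg x]
  · apply abs_pos.mpr
    rintro rfl
    nlinarith [sq_nonneg (x - c)]
  · rw [sq_abs]; exact hu
  · rw [sq_abs]; exact hv

theorem on_of_uv {A B c x u v : ℚ} (hA : 0 < A) (hB : 0 < B) (hu0 : 0 < u) (hv0 : 0 < v)
    (hu : x ^ 2 + A = u ^ 2) (hv : (x - c) ^ 2 + B = v ^ 2) :
    On A B c (u - x) (v + (x - c)) ∧ 0 < u - x ∧ 0 < v + (x - c) ∧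
      x = (A / (u - x) - (u - x)) / 2 := by
  have h1 : 0 < u - x := by
    have : |x| < u := by
      apply abs_lt_of_sq_lt_sq _ hu0.le
      nlinarith
    linarith [le_abs_self x]
  have h2 : 0 < v + (x - c) := by
    have : |x - c| < v := by
      apply abs_lt_of_sq_lt_sq _ hv0.le
      nlinarith
    linarith [neg_abs_le (x - c)]
  have e1 : (u - x) * (u + x) = A := by linear_combination -hu
  have e2 : (v + (x - c)) * (v - (x - c)) = B := by linear_combination -hv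
  refine ⟨⟨h1.ne', h2.ne', ?_⟩, h1, h2, ?_⟩
  · rw [← e1, ← e2]; ring
  · have h3 : A / (u - x) = u + x := by
      rw [div_eq_iff h1.ne', ← e1]; ring
    rw [h3]; ring

/-- The third intersection point of a chord. -/
theorem third {A B c t₁ s₁ t₀ s₀ m k t₃ : ℚ} (h1 : On A B c t₁ s₁) (h0 : On A B c t₀ s₀)
    (ht : t₁ ≠ t₀) (hB : B ≠ 0) (hm1 : s₁ = m * t₁ + k) (hm0 : s₀ = m * t₀ + k)
    (ht3 : t₃ ≠ 0) (h3 : m * (1 + m) * t₁ * t₀ * t₃ = A * k) :
    On A B c t₃ (m * t₃ + k) ∧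
      m * (1 + m) * (t₁ - t₀) * (t₁ - t₃) * (t₁ * s₁) =
        s₁ ^ 2 * (t₁ ^ 2 + A) + m * t₁ ^ 2 * (s₁ ^ 2 + B) := by
  obtain ⟨ht1, hs1, h1⟩ := h1
  obtain ⟨ht0, hs0, h0⟩ := h0
  have hne : t₁ - t₀ ≠ 0 := sub_ne_zero.mpr ht
  have E1 : -(m * (1 + m)) * (t₁ ^ 2 + t₁ * t₀ + t₀ ^ 2) -
      (k + 2 * m * k + 2 * c * m) * (t₁ + t₀) + (A * m - k ^ 2 + B - 2 * c * k) = 0 := by
    apply mul_left_cancel₀ hne
    subst hm1 hm0
    linear_combination h1 - h0
  have E2 : -(m * (1 + m)) * (t₁ * t₀) * (t₁ + t₀) -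
      (k + 2 * m * k + 2 * c * m) * (t₁ * t₀) - A * k = 0 := by
    apply mul_left_cancel₀ hne
    subst hm1 hm0
    linear_combination t₀ * h1 - t₁ * h0
  have h10 : t₁ * t₀ ≠ 0 := mul_ne_zero ht1 ht0
  have hP : A * (m * t₃ + k) - t₃ ^ 2 * (m * t₃ + k) - t₃ * (m * t₃ + k) ^ 2 + B * t₃ -
      2 * c * t₃ * (m * t₃ + k) = 0 := by
    apply mul_left_cancel₀ h10
    linear_combination (t₃ ^ 2 - (t₁ + t₀) * t₃) * E2 + t₁ * t₀ * t₃ * E1 -
      (t₃ - t₁) * (t₃ - t₀) * h3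
  have hQ : -(m * (1 + m)) * (3 * t₁ ^ 2) - 2 * (k + 2 * m * k + 2 * c * m) * t₁ +
      (A * m - k ^ 2 + B - 2 * c * k) = -(m * (1 + m)) * (t₁ - t₀) * (t₁ - t₃) := by
    apply mul_left_cancel₀ h10
    linear_combination (2 * t₁ - (t₁ + t₀)) * E2 + t₁ * t₀ * E1 - (t₁ - t₀) * h3
  refine ⟨⟨ht3, ?_, hP⟩, ?_⟩
  · intro h
    rw [h] at hP
    have : B * t₃ = 0 := by linear_combination hP
    rcases mul_eq_zero.mp this with h | h
    · exact hB h
    · exact ht3 h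
  · subst hm1
    linear_combination (t₁ * (m * t₁ + k)) * hQ - ((m * t₁ + k) + m * t₁) * h1

end Pool.Agent.H52R
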