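import Pool.Agent.H52R.Seq

set_option autoImplicit false

namespace Pool.Agent.H52R

theorem Good.scale {A B c x : ℚ} (k : ℚ) (h : Good A B c x) :
    Good (k ^ 2 * A) (k ^ 2 * B) (k * c) (k * x) := by
  obtain ⟨⟨u, hu⟩, ⟨v, hv⟩⟩ := h
  exact ⟨⟨k * u, by linear_combination k ^ 2 * hu⟩, ⟨k * v, by linear_combination k ^ 2 * hv⟩⟩

section field
variable {F : Type*} [Field F]

/-- the cross coefficient `c_z` -/
def cz (ρ z τ : F) : F := -((z + τ) * (z + ρ / τ)) + 2 * (z - 1) * (z - ρ)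

def fA (ρ z τ : F) : F := 4 * z * (z - 1) * (z - ρ) * ((1 + τ) * (τ + ρ) / τ) / (z + τ) ^ 4

def fx (ρ z τ : F) : F := cz ρ z τ / (z + τ) ^ 2

theorem fA_eq {ρ z τ v : F} (hτ : τ ≠ 0) (hz : z + τ ≠ 0) :
    v ^ 2 * (z + τ) ^ 2 + (z + ρ / τ) ^ 2 + 2 * v * cz ρ z τ =
      (z + τ) ^ 2 * ((v + fx ρ z τ) ^ 2 + fA ρ z τ) := by
  unfold fA fx cz
  field_simp
  ring

end field

theorem cast_fA (ρ z τ : ℚ) : ((fA ρ z τ : ℚ) : ℝ) = fA (ρ : ℝ) (z : ℝ) (τ : ℝ) := by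
  unfold fA; push_cast; ring

theorem cast_fx (ρ z τ : ℚ) : ((fx ρ z τ : ℚ) : ℝ) = fx (ρ : ℝ) (z : ℝ) (τ : ℝ) := by
  unfold fx cz; push_cast; ring

theorem fA_pos {p ρ q τ : ℝ} (hp : 0 < p) (hp1 : p < 1) (hρ : 1 < ρ) (hq : ρ < q) (hτ : 0 < τ) :
    0 < fA ρ p τ ∧ 0 < fA ρ q τ := by
  unfold fA
  have h1 : 0 < 4 * p * (p - 1) * (p - ρ) := by
    have : 4 * p * (p - 1) * (p - ρ) = 4 * p * (1 - p) * (ρ - p) := by ring
    rw [this]
    have h2 : 0 < 1 - p := by linarith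
    have h3 : 0 < ρ - p := by linarith
    positivity
  have h4 : 0 < 4 * q * (q - 1) * (q - ρ) := by
    have h2 : 0 < q - 1 := by linarith
    have h3 : 0 < q - ρ := by linarith
    have h5 : 0 < q := by linarith
    positivity
  have hq0 : 0 < q := by linarith
  have hρ0 : 0 < ρ := by linarith
  constructor <;> positivity

theorem cont_fA {ρ z τ₁ : ℝ} (hτ : τ₁ ≠ 0) (hz : z + τ₁ ≠ 0) :
    ContinuousAt (fun τ => fA ρ z τ) τ₁ := by
  unfold fA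
  apply ContinuousAt.div
  · apply ContinuousAt.mul
    · fun_prop
    · apply ContinuousAt.div
      · fun_prop
      · fun_prop
      · exact hτ
  · fun_prop
  · exact pow_ne_zero 4 hz

theorem cont_fx {ρ z τ₁ : ℝ} (hτ : τ₁ ≠ 0) (hz : z + τ₁ ≠ 0) :
    ContinuousAt (fun τ => fx ρ z τ) τ₁ := by
  unfold fx cz
  apply ContinuousAt.div
  · apply ContinuousAt.add
    · apply ContinuousAt.neg
      apply ContinuousAt.mul
      · fun_prop
      · apply ContinuousAt.add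
        · fun_prop
        · apply ContinuousAt.div
          · fun_prop
          · fun_prop
          · exact hτ
    · fun_prop
  · fun_prop
  · exact pow_ne_zero 2 hz

/-- many good points for a suitable parameter -/
theorem many {p ρ q : ℚ} (hp : 0 < p) (hp1 : p < 1) (hρ : 1 < ρ) (hq : ρ < q) (N : ℕ) {l r : ℚ}
    (hl : 0 < l) (hlr : l < r) :
    ∃ τ : ℚ, l < τ ∧ τ < r ∧ ∃ F : Finset ℚ, N ≤ F.card ∧
      ∀ y ∈ F, Good (fA ρ p τ) (fA ρ q τ) (fx ρ p τ - fx ρ q τ) y := by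
  classical
  let S : Polynomial ℚ := Polynomial.C 4 * Polynomial.X * (1 + Polynomial.X) *
    (Polynomial.X + Polynomial.C ρ)
  let A : Polynomial ℚ := Polynomial.C (p * (1 - p) * (ρ - p)) * (Polynomial.C q + Polynomial.X) ^ 4
  let B : Polynomial ℚ := Polynomial.C (q * (q - 1) * (q - ρ)) * (Polynomial.C p + Polynomial.X) ^ 4
  let Cz : ℚ → Polynomial ℚ := fun z => -((Polynomial.C z + Polynomial.X) *
    (Polynomial.C z * Polynomial.X + Polynomial.C ρ)) +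
    Polynomial.C 2 * Polynomial.X * Polynomial.C ((z - 1) * (z - ρ))
  let C : Polynomial ℚ := Cz p * (Polynomial.C q + Polynomial.X) ^ 2 -
    Cz q * (Polynomial.C p + Polynomial.X) ^ 2
  have hS : ∀ x : ℚ, S.eval x = 4 * x * (1 + x) * (x + ρ) := by intro x; simp [S]
  have hA : ∀ x : ℚ, A.eval x = p * (1 - p) * (ρ - p) * (q + x) ^ 4 := by intro x; simp [A]
  have hB : ∀ x : ℚ, B.eval x = q * (q - 1) * (q - ρ) * (p + x) ^ 4 := by intro x; simp [B]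
  have hC : ∀ x : ℚ, C.eval x = (-((p + x) * (p * x + ρ)) + 2 * x * ((p - 1) * (p - ρ))) * (q + x) ^ 2 -
      (-((q + x) * (q * x + ρ)) + 2 * x * ((q - 1) * (q - ρ))) * (p + x) ^ 2 := by
    intro x; simp [C, Cz]
  have h1p : 0 < 1 - p := by linarith
  have hρp : 0 < ρ - p := by linarith
  have hq1 : 0 < q - 1 := by linarith
  have hqρ : 0 < q - ρ := by linarith
  have hρ1 : 0 < ρ - 1 := by linarith
  have hqp : 0 < q - p := by linarith
  have hq0 : 0 < q := by linarith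
  have hρ0 : 0 < ρ := by linarith
  -- the base point
  obtain ⟨x₀, hx0, hA0, hB0, hAB0, hC0⟩ : ∃ x₀ : ℚ, S.eval x₀ = 0 ∧ 0 < A.eval x₀ ∧ 0 < B.eval x₀ ∧
      A.eval x₀ ≠ B.eval x₀ ∧ C.eval x₀ ≠ 0 := by
    have a1 : A.eval (-1) = p * (1 - p) * (ρ - p) * (q - 1) ^ 4 := by rw [hA]; ring
    have b1 : B.eval (-1) = q * (q - 1) * (q - ρ) * (1 - p) ^ 4 := by rw [hB]; ring
    have a2 : A.eval (-ρ) = p * (1 - p) * (ρ - p) * (q - ρ) ^ 4 := by rw [hA]; ring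
    have b2 : B.eval (-ρ) = q * (q - 1) * (q - ρ) * (ρ - p) ^ 4 := by rw [hB]; ring
    have c1 : C.eval (-1) = -((1 - p) * (q - 1) * (ρ - 1) * (q - p)) := by rw [hC]; ring
    have c2 : C.eval (-ρ) = ρ * (ρ - p) * (q - ρ) * (ρ - 1) * (q - p) := by rw [hC]; ring
    by_cases h : A.eval (-1) = B.eval (-1)
    · refine ⟨-ρ, by rw [hS]; ring, by rw [a2]; positivity, by rw [b2]; positivity, ?_,
        by rw [c2]; positivity⟩
      intro h'
      rw [a1, b1] at h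
      rw [a2, b2] at h'
      have h3 : (1 - p) * (q - ρ) < (ρ - p) * (q - 1) :=
        mul_lt_mul'' (by linarith) (by linarith) h1p.le hqρ.le
      have h4 : ((1 - p) * (q - ρ)) ^ 4 < ((ρ - p) * (q - 1)) ^ 4 :=
        pow_lt_pow_left₀ h3 (by positivity) (by norm_num)
      have h5 : (p * (1 - p) * (ρ - p) * (q * (q - 1) * (q - ρ))) * ((1 - p) * (q - ρ)) ^ 4 =
          (p * (1 - p) * (ρ - p) * (q * (q - 1) * (q - ρ))) * ((ρ - p) * (q - 1)) ^ 4 := by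
        calc (p * (1 - p) * (ρ - p) * (q * (q - 1) * (q - ρ))) * ((1 - p) * (q - ρ)) ^ 4 =
            (q * (q - 1) * (q - ρ) * (1 - p) ^ 4) * (p * (1 - p) * (ρ - p) * (q - ρ) ^ 4) := by ring
          _ = (p * (1 - p) * (ρ - p) * (q - 1) ^ 4) * (q * (q - 1) * (q - ρ) * (ρ - p) ^ 4) := by
            rw [← h, h']
          _ = _ := by ring
      have h6 := mul_left_cancel₀ (by positivity) h5
      exact absurd h6 h4.ne
    · refine ⟨-1, by rw [hS]; ring, by rw [a1]; positivity, by rw [b1]; positivity, h, ?_⟩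
      rw [c1]
      exact neg_ne_zero.mpr (by positivity)
  obtain ⟨τ, h1, h2, F, hF, hG⟩ := generic_path S A B C hx0 hA0 hB0 hAB0 hC0 N hlr
  have hτ : 0 < τ := by linarith
  have hpτ : 0 < p + τ := by linarith
  have hqτ : 0 < q + τ := by linarith
  obtain ⟨k, hk⟩ : ∃ k : ℚ, k = 1 / (τ * (p + τ) ^ 2 * (q + τ) ^ 2) := ⟨_, rfl⟩
  have hk0 : k ≠ 0 := by rw [hk]; positivity
  refine ⟨τ, h1, h2, F.image (fun y => k * y), ?_, ?_⟩
  · rw [Finset.card_image_of_injective _ (fun a b h => mul_left_cancel₀ hk0 h)]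
    exact hF
  · intro y hy
    obtain ⟨x, hx, rfl⟩ := Finset.mem_image.mp hy
    have := (hG x hx).scale k
    have e1 : k ^ 2 * (S.eval τ * A.eval τ) = fA ρ p τ := by
      rw [hS, hA, hk]
      unfold fA
      field_simp
      ring
    have e2 : k ^ 2 * (S.eval τ * B.eval τ) = fA ρ q τ := by
      rw [hS, hB, hk]
      unfold fA
      field_simp
    have e3 : k * C.eval τ = fx ρ p τ - fx ρ q τ := by
      rw [hC, hk]
      unfold fx cz
      field_simp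
    rwa [e1, e2, e3] at this

/-- The approximation statement for the family. -/
theorem fam {p ρ q : ℚ} (hp : 0 < p) (hp1 : p < 1) (hρ : 1 < ρ) (hq : ρ < q) {τ₁ v₁ η : ℝ}
    (hτ₁ : 0 < τ₁) (hη : 0 < η) :
    ∃ τ v : ℚ, 0 < τ ∧ |(τ : ℝ) - τ₁| < η ∧ |(v : ℝ) - v₁| < η ∧
      (∃ r : ℚ, v ^ 2 * (p + τ) ^ 2 + (p + ρ / τ) ^ 2 + 2 * v * cz ρ p τ = r ^ 2) ∧
      (∃ r : ℚ, v ^ 2 * (q + τ) ^ 2 + (q + ρ / τ) ^ 2 + 2 * v * cz ρ q τ = r ^ 2) := by
  have hp' : (0:ℝ) < p := by exact_mod_cast hp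
  have hp1' : (p:ℝ) < 1 := by exact_mod_cast hp1
  have hρ' : (1:ℝ) < ρ := by exact_mod_cast hρ
  have hq' : (ρ:ℝ) < q := by exact_mod_cast hq
  obtain ⟨hA0, hB0⟩ := fA_pos hp' hp1' hρ' hq' hτ₁
  obtain ⟨A₁, hA₁⟩ : ∃ A₁ : ℝ, A₁ = fA (ρ:ℝ) p τ₁ := ⟨_, rfl⟩
  obtain ⟨B₁, hB₁⟩ : ∃ B₁ : ℝ, B₁ = fA (ρ:ℝ) q τ₁ := ⟨_, rfl⟩
  obtain ⟨c₁, hc₁⟩ : ∃ c₁ : ℝ, c₁ = fx (ρ:ℝ) p τ₁ - fx (ρ:ℝ) q τ₁ := ⟨_, rfl⟩
  obtain ⟨x₁, hx₁⟩ : ∃ x₁ : ℝ, x₁ = fx (ρ:ℝ) p τ₁ := ⟨_, rfl⟩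
  rw [← hA₁] at hA0
  rw [← hB₁] at hB0
  have cA : ContinuousAt (fun τ => fA (ρ:ℝ) p τ) τ₁ := cont_fA hτ₁.ne' (by positivity)
  have cB : ContinuousAt (fun τ => fA (ρ:ℝ) q τ) τ₁ := cont_fA hτ₁.ne' (by
    have : 0 < (q:ℝ) := by linarith
    positivity)
  have cX : ContinuousAt (fun τ => fx (ρ:ℝ) p τ) τ₁ := cont_fx hτ₁.ne' (by positivity)
  have cC : ContinuousAt (fun τ => fx (ρ:ℝ) p τ - fx (ρ:ℝ) q τ) τ₁ :=
    cX.sub (cont_fx hτ₁.ne' (by
      have : 0 < (q:ℝ) := by linarith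
      positivity))
  -- H
  obtain ⟨H, hH⟩ := exists_rat_gt (2 + A₁ + B₁ + |c₁| + 2 / A₁ + 2 / B₁)
  have h2a : 0 < 2 / A₁ := by positivity
  have h2b : 0 < 2 / B₁ := by positivity
  have hc0 : 0 ≤ |c₁| := abs_nonneg c₁
  have hH1 : (1:ℚ) ≤ H := by
    have : (1:ℝ) ≤ H := by linarith
    exact_mod_cast this
  obtain ⟨Mq, hMq⟩ := exists_rat_gt (|v₁ + x₁| + |x₁| + 2 + η)
  have hMq0 : (0:ℚ) ≤ Mq := by
    have : (0:ℝ) ≤ Mq := by
      have h1 := abs_nonneg (v₁ + x₁)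
      have h2 := abs_nonneg x₁
      linarith
    exact_mod_cast this
  obtain ⟨e, he0, heη⟩ := exists_rat_btwn (show (0:ℝ) < η / 4 by positivity)
  have he0' : (0:ℚ) < e := by exact_mod_cast he0
  obtain ⟨N, hN⟩ := lemmaA hH1 hMq0 he0'
  -- the neighbourhood
  obtain ⟨δA, hδA, hclA⟩ := Metric.continuousAt_iff.mp cA (min 1 (A₁ / 2)) (by positivity)
  obtain ⟨δB, hδB, hclB⟩ := Metric.continuousAt_iff.mp cB (min 1 (B₁ / 2)) (by positivity)
  obtain ⟨δC, hδC, hclC⟩ := Metric.continuousAt_iff.mp cC 1 one_pos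
  obtain ⟨δX, hδX, hclX⟩ := Metric.continuousAt_iff.mp cX (min 1 (η / 4)) (by positivity)
  obtain ⟨δ, hδ0, hδη, hδτ, hδ1, hδ2, hδ3, hδ4⟩ : ∃ δ : ℝ, 0 < δ ∧ δ ≤ η ∧ δ ≤ τ₁ / 2 ∧
      δ ≤ δA ∧ δ ≤ δB ∧ δ ≤ δC ∧ δ ≤ δX := by
    refine ⟨min η (min (τ₁ / 2) (min δA (min δB (min δC δX)))), ?_, ?_⟩
    · simp only [lt_min_iff]
      refine ⟨hη, by positivity, hδA, hδB, hδC, hδX⟩
    · simp only [min_le_iff, le_refl, true_or, or_true, and_self]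
  obtain ⟨l, hl1, hl2⟩ := exists_rat_btwn (show τ₁ - δ < τ₁ by linarith)
  obtain ⟨r, hr1, hr2⟩ := exists_rat_btwn (show τ₁ < τ₁ + δ by linarith)
  have hl0 : (0:ℚ) < l := by
    have : (0:ℝ) < l := by linarith
    exact_mod_cast this
  have hlr : l < r := by
    have : (l:ℝ) < r := hl2.trans hr1
    exact_mod_cast this
  obtain ⟨τ, hτl, hτr, F, hF, hG⟩ := many hp hp1 hρ hq N hl0 hlr
  have hτ0 : 0 < τ := hl0.trans hτl
  have hτd : |(τ:ℝ) - τ₁| < δ := by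
    have h1 : (l:ℝ) < τ := by exact_mod_cast hτl
    have h2 : (τ:ℝ) < r := by exact_mod_cast hτr
    rw [abs_lt]; constructor <;> linarith
  have dA := hclA (x := (τ:ℝ)) (by rw [Real.dist_eq]; exact hτd.trans_le hδ1)
  have dB := hclB (x := (τ:ℝ)) (by rw [Real.dist_eq]; exact hτd.trans_le hδ2)
  have dC := hclC (x := (τ:ℝ)) (by rw [Real.dist_eq]; exact hτd.trans_le hδ3)
  have dX := hclX (x := (τ:ℝ)) (by rw [Real.dist_eq]; exact hτd.trans_le hδ4)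
  rw [Real.dist_eq, lt_min_iff, ← cast_fA, ← hA₁] at dA
  rw [Real.dist_eq, lt_min_iff, ← cast_fA, ← hB₁] at dB
  rw [Real.dist_eq, ← cast_fx, ← cast_fx, ← hc₁] at dC
  rw [Real.dist_eq, lt_min_iff, ← cast_fx, ← hx₁] at dX
  obtain ⟨A, hA⟩ : ∃ A : ℚ, A = fA ρ p τ := ⟨_, rfl⟩
  obtain ⟨B, hB⟩ : ∃ B : ℚ, B = fA ρ q τ := ⟨_, rfl⟩
  obtain ⟨c, hc⟩ : ∃ c : ℚ, c = fx ρ p τ - fx ρ q τ := ⟨_, rfl⟩
  obtain ⟨x, hx⟩ : ∃ x : ℚ, x = fx ρ p τ := ⟨_, rfl⟩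
  have hcc : ((fx ρ p τ : ℚ) : ℝ) - ((fx ρ q τ : ℚ) : ℝ) = (c : ℝ) := by rw [hc]; push_cast; ring
  rw [← hA] at dA
  rw [← hB] at dB
  rw [hcc] at dC
  rw [← hx] at dX
  have a1 := abs_lt.mp dA.1
  have a2 := abs_lt.mp dA.2
  have b1 := abs_lt.mp dB.1
  have b2 := abs_lt.mp dB.2
  have haQ : (0:ℚ) < A := by
    have : (0:ℝ) < A := by linarith
    exact_mod_cast this
  have hbQ : (0:ℚ) < B := by
    have : (0:ℝ) < B := by linarith
    exact_mod_cast this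
  have haH : A ≤ H := by
    have : (A:ℝ) ≤ H := by linarith
    exact_mod_cast this
  have hbH : B ≤ H := by
    have : (B:ℝ) ≤ H := by linarith
    exact_mod_cast this
  have hcH : |c| ≤ H := by
    have h4 := abs_sub_abs_le_abs_sub (c:ℝ) c₁
    have : |(c:ℝ)| ≤ H := by linarith
    exact_mod_cast this
  have haH' : 1 ≤ H * A := by
    have h1 : (2 / A₁) ≤ H := by linarith
    have : (1:ℝ) ≤ H * A := by
      calc (1:ℝ) = (2 / A₁) * (A₁ / 2) := by field_simp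
        _ ≤ H * A := mul_le_mul h1 (by linarith) (by positivity) (by linarith)
    exact_mod_cast this
  have hbH' : 1 ≤ H * B := by
    have h1 : (2 / B₁) ≤ H := by linarith
    have : (1:ℝ) ≤ H * B := by
      calc (1:ℝ) = (2 / B₁) * (B₁ / 2) := by field_simp
        _ ≤ H * B := mul_le_mul h1 (by linarith) (by positivity) (by linarith)
    exact_mod_cast this
  have hpτ : p + τ ≠ 0 := by positivity
  have hq0 : 0 < q := by linarith
  have hqτ : q + τ ≠ 0 := by positivity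
  -- the base good point
  have eP := fun v : ℚ => fA_eq (ρ := ρ) (z := p) (τ := τ) (v := v) hτ0.ne' hpτ
  have eQ := fun v : ℚ => fA_eq (ρ := ρ) (z := q) (τ := τ) (v := v) hτ0.ne' hqτ
  have hgood0 : Good A B c x := by
    refine ⟨⟨(p + ρ / τ) / (p + τ), ?_⟩, ⟨(q + ρ / τ) / (q + τ), ?_⟩⟩
    · have h := eP 0
      rw [← hA, ← hx] at h
      rw [div_pow, eq_div_iff (pow_ne_zero 2 hpτ)]
      linear_combination -h
    · have h := eQ 0
      rw [← hB] at h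
      rw [div_pow, eq_div_iff (pow_ne_zero 2 hqτ)]
      have h2 : x - c = fx ρ q τ := by rw [hx, hc]; ring
      rw [h2]
      linear_combination -h
  have hxM : |x| ≤ Mq := by
    have h4 := abs_sub_abs_le_abs_sub (x:ℝ) x₁
    have h5 := abs_nonneg (v₁ + x₁)
    have : |(x:ℝ)| ≤ Mq := by linarith [dX.1]
    exact_mod_cast this
  -- the target
  obtain ⟨y, hy⟩ := exists_rat_near (v₁ + x₁) (show (0:ℝ) < min 1 (η / 4) by positivity)
  rw [lt_min_iff] at hy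
  have hyM : |y| ≤ Mq := by
    have h1 : |(y:ℝ)| ≤ Mq := by
      have h4 := abs_sub_abs_le_abs_sub (y:ℝ) (v₁ + x₁)
      have h5 := abs_sub_comm (y:ℝ) (v₁ + x₁)
      have h6 := abs_nonneg x₁
      linarith [hy.1]
    exact_mod_cast h1
  rw [← hA, ← hB, ← hc] at hG
  obtain ⟨X, hX, hXy⟩ := hN A B c haQ hbQ haH hbH hcH haH' hbH' F hF hG x hgood0 hxM y hyM
  refine ⟨τ, X - x, hτ0, hτd.trans_le hδη, ?_, ?_, ?_⟩
  · have h1 : |(X:ℝ) - y| ≤ e := by exact_mod_cast hXy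
    have h2 := abs_le.mp h1
    have h3 := abs_lt.mp hy.2
    have h4 := abs_lt.mp dX.2
    push_cast
    rw [abs_lt]; constructor <;> linarith
  · obtain ⟨⟨u, hu⟩, -⟩ := hX
    refine ⟨(p + τ) * u, ?_⟩
    rw [eP, ← hA, ← hx, sub_add_cancel, hu]
    ring
  · obtain ⟨-, ⟨w, hw⟩⟩ := hX
    refine ⟨(q + τ) * w, ?_⟩
    have h2 : X - x + fx ρ q τ = X - c := by rw [hx, hc]; ring
    rw [eQ, ← hB, h2, hw]
    ring

end Pool.Agent.H52R
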