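import Pool.Agent.H52R.Fam

set_option autoImplicit false

open scoped RealInnerProductSpace

namespace Pool.Agent.H52R

/-- the real parameters of a triangle -/
theorem params {U V P R ρ : ℝ} (hU : 0 < U) (hV : 0 < V) (hP : 0 < P) (hR : 0 < R) (hρ : 1 < ρ)
    (hR2 : R ^ 2 = ρ * P ^ 2 + ρ * (ρ - 1) * V ^ 2 - (ρ - 1) * U ^ 2)
    (hG : ((U ^ 2 + V ^ 2 - P ^ 2) / 2) ^ 2 < U ^ 2 * V ^ 2) :
    ∃ m n τ : ℝ, 0 < m ∧ 0 < n ∧ 0 < τ ∧ U = m * τ + n * (ρ / τ) ∧ V = m + n ∧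
      P = m * (1 + τ) - n * (1 + ρ / τ) := by
  obtain ⟨w, hw⟩ : ∃ w : ℝ, w = (U ^ 2 + V ^ 2 - P ^ 2) / 2 := ⟨_, rfl⟩
  rw [← hw] at hG
  have hUV : 0 < U * V := mul_pos hU hV
  have hρ0 : 0 < ρ := by linarith
  have hw1 : w < U * V := by
    by_contra h
    push Not at h
    nlinarith
  have hw2 : -(U * V) < w := by
    by_contra h
    push Not at h
    nlinarith
  -- triangle inequality `P < U + V`
  have t1 : 0 < U + V - P := by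
    by_contra h
    push Not at h
    nlinarith
  -- `P < R + (ρ - 1) V`
  have t2 : 0 < R + (ρ - 1) * V - P := by
    have h1 : (w - ρ * V ^ 2) < R * V := by
      by_contra h
      push Not at h
      have h2 : 0 < R * V := mul_pos hR hV
      have h3 : (R * V) ^ 2 ≤ (w - ρ * V ^ 2) ^ 2 := by nlinarith
      have h4 : (R * V) ^ 2 = (w - ρ * V ^ 2) ^ 2 + (U ^ 2 * V ^ 2 - w ^ 2) := by
        rw [mul_pow, hR2, hw]; ring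
      linarith
    by_contra h
    push Not at h
    have h5 : 0 < R + (ρ - 1) * V := by
      have : 0 < (ρ - 1) * V := mul_pos (by linarith) hV
      linarith
    have h6 : (R + (ρ - 1) * V) ^ 2 ≤ P ^ 2 := by nlinarith
    have h7 : P ^ 2 = R ^ 2 + 2 * (ρ - 1) * (w - ρ * V ^ 2) + (ρ - 1) ^ 2 * V ^ 2 := by
      rw [hR2, hw]; ring
    have h8 : 0 < (ρ - 1) * (R * V - (w - ρ * V ^ 2)) := mul_pos (by linarith) (by linarith)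
    nlinarith
  -- `R < (ρ - 1) U + ρ P`
  have t3 : 0 < (ρ - 1) * U + ρ * P - R := by
    have h1 : -(P * U) < U ^ 2 - w := by
      by_contra h
      push Not at h
      have h2 : 0 < P * U := mul_pos hP hU
      have h3 : (P * U) ^ 2 ≤ (U ^ 2 - w) ^ 2 := by nlinarith
      have h4 : (P * U) ^ 2 = (U ^ 2 - w) ^ 2 + (U ^ 2 * V ^ 2 - w ^ 2) := by
        rw [mul_pow]
        have : P ^ 2 = U ^ 2 + V ^ 2 - 2 * w := by rw [hw]; ring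
        rw [this]; ring
      linarith
    by_contra h
    push Not at h
    have h5 : 0 < (ρ - 1) * U + ρ * P := by
      have : 0 < (ρ - 1) * U := mul_pos (by linarith) hU
      positivity
    have h6 : ((ρ - 1) * U + ρ * P) ^ 2 ≤ R ^ 2 := by nlinarith
    have h7 : R ^ 2 = ρ ^ 2 * P ^ 2 - 2 * ρ * (ρ - 1) * (U ^ 2 - w) + (ρ - 1) ^ 2 * U ^ 2 := by
      rw [hR2, hw]; ring
    have h8 : 0 < ρ * (ρ - 1) * (P * U + (U ^ 2 - w)) :=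
      mul_pos (mul_pos hρ0 (by linarith)) (by linarith)
    nlinarith
  obtain ⟨a, ha⟩ : ∃ a : ℝ, a = R + (ρ - 1) * V - P := ⟨_, rfl⟩
  obtain ⟨b, hb⟩ : ∃ b : ℝ, b = (ρ - 1) * U + ρ * P - R := ⟨_, rfl⟩
  obtain ⟨c, hc⟩ : ∃ c : ℝ, c = P + (ρ - 1) * V - R := ⟨_, rfl⟩
  rw [← ha] at t2
  rw [← hb] at t3
  have hρ1 : 0 < ρ - 1 := by linarith
  have key : c * (U + ρ * V + R) = (U + V - P) * b := by
    rw [hb, hc]; linear_combination -hR2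
  have hc0 : 0 < c := by
    have h1 : 0 < c * (U + ρ * V + R) := by rw [key]; positivity
    exact pos_of_mul_pos_left h1 (by positivity)
  have k1 : b ^ 2 + c * ρ * a = 2 * (ρ - 1) * U * b := by
    rw [ha, hb, hc]; linear_combination (-(ρ - 1)) * hR2
  have k2 : (a + b) * b - c * (b + ρ * a) = 2 * (ρ - 1) * P * b := by
    have h1 : a + b - c + b - 2 * (ρ - 1) * U - 2 * (ρ - 1) * P = 0 := by
      rw [ha, hb, hc]; ring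
    linear_combination b * h1 - k1
  refine ⟨a / (2 * (ρ - 1)), c / (2 * (ρ - 1)), b / a, by positivity,
    by positivity, by positivity, ?_, ?_, ?_⟩
  · field_simp
    linear_combination -k1
  · rw [← add_div, eq_div_iff (by positivity), ha, hc]; ring
  · field_simp
    linear_combination -k2

theorem cont_coeff {U₁ V₁ P₁ w₁ : ℝ} (hU : 0 < U₁) :
    ContinuousAt (fun x : ℝ × ℝ × ℝ =>
      (x.1 / U₁, ((x.1 ^ 2 + x.2.1 ^ 2 - x.2.2 ^ 2) / 2 / (x.1 / U₁) -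
        √((x.2.1 ^ 2 - ((x.1 ^ 2 + x.2.1 ^ 2 - x.2.2 ^ 2) / 2) ^ 2 / x.1 ^ 2) /
          (V₁ ^ 2 - w₁ ^ 2 / U₁ ^ 2)) * w₁) / U₁ ^ 2,
        √((x.2.1 ^ 2 - ((x.1 ^ 2 + x.2.1 ^ 2 - x.2.2 ^ 2) / 2) ^ 2 / x.1 ^ 2) /
          (V₁ ^ 2 - w₁ ^ 2 / U₁ ^ 2)))) (U₁, V₁, P₁) := by
  have c3 : ContinuousAt (fun x : ℝ × ℝ × ℝ =>
      √((x.2.1 ^ 2 - ((x.1 ^ 2 + x.2.1 ^ 2 - x.2.2 ^ 2) / 2) ^ 2 / x.1 ^ 2) /
          (V₁ ^ 2 - w₁ ^ 2 / U₁ ^ 2))) (U₁, V₁, P₁) := by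
    apply ContinuousAt.sqrt
    apply ContinuousAt.div_const
    apply ContinuousAt.sub
    · fun_prop
    · apply ContinuousAt.div
      · fun_prop
      · fun_prop
      · exact pow_ne_zero 2 hU.ne'
  apply ContinuousAt.prodMk
  · fun_prop
  apply ContinuousAt.prodMk
  · apply ContinuousAt.div_const
    apply ContinuousAt.sub
    · apply ContinuousAt.div
      · fun_prop
      · fun_prop
      · exact div_ne_zero hU.ne' hU.ne'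
    · exact c3.mul continuousAt_const
  · exact c3

variable {E : Type*} [NormedAddCommGroup E] [InnerProductSpace ℝ E]

/-- realising nearby side lengths -/
theorem realise {e₁ e₂ : E} (h1 : e₁ ≠ 0) (hG : ⟪e₁, e₂⟫ ^ 2 < ‖e₁‖ ^ 2 * ‖e₂‖ ^ 2) {ε : ℝ}
    (hε : 0 < ε) :
    ∃ δ : ℝ, 0 < δ ∧ ∀ U V P : ℝ, |U - ‖e₁‖| < δ → |V - ‖e₂‖| < δ → |P - ‖e₁ - e₂‖| < δ →
      ∃ f₁ f₂ : E, ‖f₁ - e₁‖ < ε ∧ ‖f₂ - e₂‖ < ε ∧ ‖f₁‖ ^ 2 = U ^ 2 ∧ ‖f₂‖ ^ 2 = V ^ 2 ∧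
        ⟪f₁, f₂⟫ = (U ^ 2 + V ^ 2 - P ^ 2) / 2 := by
  obtain ⟨U₁, hU₁⟩ : ∃ U₁ : ℝ, U₁ = ‖e₁‖ := ⟨_, rfl⟩
  obtain ⟨V₁, hV₁⟩ : ∃ V₁ : ℝ, V₁ = ‖e₂‖ := ⟨_, rfl⟩
  obtain ⟨P₁, hP₁⟩ : ∃ P₁ : ℝ, P₁ = ‖e₁ - e₂‖ := ⟨_, rfl⟩
  obtain ⟨w₁, hw₁⟩ : ∃ w₁ : ℝ, w₁ = ⟪e₁, e₂⟫ := ⟨_, rfl⟩
  have hU0 : 0 < U₁ := by rw [hU₁]; exact norm_pos_iff.mpr h1
  have hw : w₁ = (U₁ ^ 2 + V₁ ^ 2 - P₁ ^ 2) / 2 := by
    rw [hU₁, hV₁, hP₁, hw₁, norm_sub_sq_real]; ring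
  rw [← hU₁, ← hV₁, ← hw₁] at hG
  rw [← hU₁, ← hV₁, ← hP₁]
  have hD : 0 < V₁ ^ 2 - w₁ ^ 2 / U₁ ^ 2 := by
    have : w₁ ^ 2 / U₁ ^ 2 < V₁ ^ 2 := by
      rw [div_lt_iff₀ (by positivity)]; linarith
    linarith
  have hc := cont_coeff (V₁ := V₁) (P₁ := P₁) (w₁ := w₁) hU0
  obtain ⟨K, hK⟩ : ∃ K : ℝ, K = ‖e₁‖ + ‖e₂‖ + 1 := ⟨_, rfl⟩
  have hK0 : 0 < K := by rw [hK]; positivity
  have hη : 0 < min (ε / (2 * K)) 1 := by positivity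
  obtain ⟨δ, hδ, hcl⟩ := Metric.continuousAt_iff.mp hc _ hη
  have hval : √((V₁ ^ 2 - ((U₁ ^ 2 + V₁ ^ 2 - P₁ ^ 2) / 2) ^ 2 / U₁ ^ 2) /
      (V₁ ^ 2 - w₁ ^ 2 / U₁ ^ 2)) = 1 := by
    rw [← hw, div_self hD.ne', Real.sqrt_one]
  have hD' : ContinuousAt (fun x : ℝ × ℝ × ℝ => x.2.1 ^ 2 -
      ((x.1 ^ 2 + x.2.1 ^ 2 - x.2.2 ^ 2) / 2) ^ 2 / x.1 ^ 2) (U₁, V₁, P₁) := by
    apply ContinuousAt.sub
    · fun_prop
    · apply ContinuousAt.div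
      · fun_prop
      · fun_prop
      · exact pow_ne_zero 2 hU0.ne'
  obtain ⟨δ₂, hδ₂, hcl₂⟩ := Metric.continuousAt_iff.mp hD' _ hD
  refine ⟨min (min δ δ₂) U₁, by positivity, ?_⟩
  intro U V P hU hV hP
  simp only [lt_min_iff] at hU hV hP
  have hUpos : 0 < U := by linarith [(abs_lt.mp hU.2).1]
  have hd : dist (U, V, P) (U₁, V₁, P₁) < δ := by
    rw [Prod.dist_eq, Prod.dist_eq]
    simp only [max_lt_iff, Real.dist_eq]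
    exact ⟨hU.1.1, hV.1.1, hP.1.1⟩
  have hd₂ : dist (U, V, P) (U₁, V₁, P₁) < δ₂ := by
    rw [Prod.dist_eq, Prod.dist_eq]
    simp only [max_lt_iff, Real.dist_eq]
    exact ⟨hU.1.2, hV.1.2, hP.1.2⟩
  have hc1 := hcl hd
  have hc2 := hcl₂ hd₂
  simp only [hval] at hc1
  obtain ⟨w, hwd⟩ : ∃ w : ℝ, w = (U ^ 2 + V ^ 2 - P ^ 2) / 2 := ⟨_, rfl⟩
  simp only [← hw, ← hwd] at hc1 hc2
  have hDpos : 0 < V ^ 2 - w ^ 2 / U ^ 2 := by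
    rw [Real.dist_eq] at hc2
    linarith [(abs_lt.mp hc2).1]
  obtain ⟨y, hy⟩ : ∃ y : ℝ, y = √((V ^ 2 - w ^ 2 / U ^ 2) / (V₁ ^ 2 - w₁ ^ 2 / U₁ ^ 2)) := ⟨_, rfl⟩
  have hy2 : y ^ 2 * (V₁ ^ 2 - w₁ ^ 2 / U₁ ^ 2) = V ^ 2 - w ^ 2 / U ^ 2 := by
    rw [hy, Real.sq_sqrt (by positivity), div_mul_cancel₀ _ hD.ne']
  rw [← hy] at hc1
  obtain ⟨x, hx⟩ : ∃ x : ℝ, x = (w / (U / U₁) - y * w₁) / U₁ ^ 2 := ⟨_, rfl⟩
  rw [← hx, Prod.dist_eq, Prod.dist_eq] at hc1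
  simp only [max_lt_iff, Real.dist_eq, lt_min_iff] at hc1
  have hUU : U₁ / U₁ = 1 := div_self hU0.ne'
  have hx0 : (w₁ / (U₁ / U₁) - 1 * w₁) / U₁ ^ 2 = 0 := by rw [hUU]; ring
  rw [hUU] at hc1
  have hx0' : (w₁ / 1 - 1 * w₁) / U₁ ^ 2 = 0 := by ring
  rw [hx0', sub_zero] at hc1
  obtain ⟨⟨hs1, hx1, hy1⟩, -⟩ := hc1
  have hb : ε / (2 * K) * K = ε / 2 := by field_simp
  have hb1 : ε / (2 * K) * ‖e₁‖ ≤ ε / 2 := by
    rw [← hb]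
    apply mul_le_mul_of_nonneg_left _ (by positivity)
    rw [hK]; linarith [norm_nonneg e₂]
  have hb2 : ε / (2 * K) * ‖e₁‖ + ε / (2 * K) * ‖e₂‖ ≤ ε / 2 := by
    rw [← hb, ← mul_add]
    apply mul_le_mul_of_nonneg_left _ (by positivity)
    rw [hK]; linarith
  refine ⟨(U / U₁) • e₁, x • e₁ + y • e₂, ?_, ?_, ?_, ?_, ?_⟩
  · have e : (U / U₁) • e₁ - e₁ = (U / U₁ - 1) • e₁ := by rw [sub_smul, one_smul]
    rw [e, norm_smul, Real.norm_eq_abs]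
    have : |U / U₁ - 1| * ‖e₁‖ ≤ ε / (2 * K) * ‖e₁‖ :=
      mul_le_mul_of_nonneg_right hs1.le (norm_nonneg _)
    linarith
  · have e : x • e₁ + y • e₂ - e₂ = x • e₁ + (y - 1) • e₂ := by
      rw [sub_smul, one_smul]; abel
    rw [e]
    refine (norm_add_le _ _).trans_lt ?_
    rw [norm_smul, norm_smul, Real.norm_eq_abs, Real.norm_eq_abs]
    have h1 : |x| * ‖e₁‖ ≤ ε / (2 * K) * ‖e₁‖ :=
      mul_le_mul_of_nonneg_right hx1.le (norm_nonneg _)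
    have h2 : |y - 1| * ‖e₂‖ ≤ ε / (2 * K) * ‖e₂‖ :=
      mul_le_mul_of_nonneg_right hy1.le (norm_nonneg _)
    linarith
  · rw [norm_smul, mul_pow, Real.norm_eq_abs, sq_abs, ← hU₁, div_pow, div_mul_cancel₀]
    exact pow_ne_zero 2 hU0.ne'
  · rw [norm_add_sq_real, norm_smul, norm_smul, inner_smul_left, inner_smul_right, mul_pow, mul_pow,
      Real.norm_eq_abs, Real.norm_eq_abs, sq_abs, sq_abs, ← hU₁, ← hV₁, ← hw₁]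
    simp only [conj_trivial]
    rw [hx]
    field_simp at hy2 ⊢
    linear_combination hy2
  · rw [inner_add_right, inner_smul_left, inner_smul_right, inner_smul_left, inner_smul_right,
      real_inner_self_eq_norm_sq, ← hU₁, ← hw₁, ← hwd]
    simp only [conj_trivial]
    rw [hx]
    field_simp
    ring

end Pool.Agent.H52R
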