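import Pool.Agent.H52R.Aux1

set_option autoImplicit false

namespace Pool.Agent.H52R

section ring
variable {R : Type*} [CommRing R]

/-- one step of the homogeneous recurrence for `(N, D, G, E)` -/
def nxt (s a b c : R) (v : R × R × R × R) : R × R × R × R :=
  let W := v.1 ^ 2 - c ^ 2 * v.2.1 ^ 2
  let G' := v.2.2.1 * W - 2 * (a - b) * v.1 * v.2.1 * v.2.2.2
  let E' := v.2.2.2 * W
  (v.1 * (G' * (2 * c * E' + s * G')) + 2 * (a - b) * v.2.1 * (c * E' + s * G') * E',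
    v.2.1 * (G' * (2 * c * E' + s * G')), G', E')

def st (s a b c : R) : ℕ → R × R × R × R
  | 0 => (s * (a - b) ^ 2 + 2 * c ^ 2 * (a + b), 2 * c * (a - b), 0, 1)
  | (n + 1) => nxt s a b c (st s a b c n)

def Nn (s a b c : R) (n : ℕ) : R := (st s a b c n).1
def Dn (s a b c : R) (n : ℕ) : R := (st s a b c n).2.1
def Gn (s a b c : R) (n : ℕ) : R := (st s a b c n).2.2.1
def En (s a b c : R) (n : ℕ) : R := (st s a b c n).2.2.2

theorem Nn_zero (s a b c : R) : Nn s a b c 0 = s * (a - b) ^ 2 + 2 * c ^ 2 * (a + b) := rfl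
theorem Dn_zero (s a b c : R) : Dn s a b c 0 = 2 * c * (a - b) := rfl
theorem Gn_zero (s a b c : R) : Gn s a b c 0 = 0 := rfl
theorem En_zero (s a b c : R) : En s a b c 0 = 1 := rfl

theorem Gn_succ (s a b c : R) (n : ℕ) : Gn s a b c (n + 1) =
    Gn s a b c n * (Nn s a b c n ^ 2 - c ^ 2 * Dn s a b c n ^ 2) -
      2 * (a - b) * Nn s a b c n * Dn s a b c n * En s a b c n := rfl
theorem En_succ (s a b c : R) (n : ℕ) : En s a b c (n + 1) =
    En s a b c n * (Nn s a b c n ^ 2 - c ^ 2 * Dn s a b c n ^ 2) := rfl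
theorem Nn_succ (s a b c : R) (n : ℕ) : Nn s a b c (n + 1) =
    Nn s a b c n * (Gn s a b c (n + 1) * (2 * c * En s a b c (n + 1) + s * Gn s a b c (n + 1))) +
      2 * (a - b) * Dn s a b c n * (c * En s a b c (n + 1) + s * Gn s a b c (n + 1)) *
        En s a b c (n + 1) := rfl
theorem Dn_succ (s a b c : R) (n : ℕ) : Dn s a b c (n + 1) =
    Dn s a b c n * (Gn s a b c (n + 1) * (2 * c * En s a b c (n + 1) + s * Gn s a b c (n + 1))) := rfl

theorem map_seq {S : Type*} [CommRing S] (f : R →+* S) (s a b c : R) (n : ℕ) :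
    f (Nn s a b c n) = Nn (f s) (f a) (f b) (f c) n ∧
    f (Dn s a b c n) = Dn (f s) (f a) (f b) (f c) n ∧
    f (Gn s a b c n) = Gn (f s) (f a) (f b) (f c) n ∧
    f (En s a b c n) = En (f s) (f a) (f b) (f c) n := by
  have f2 : f 2 = 2 := map_ofNat f 2
  induction n with
  | zero => simp [Nn_zero, Dn_zero, Gn_zero, En_zero, f2]
  | succ n ih =>
    obtain ⟨h1, h2, h3, h4⟩ := ih
    have hG : f (Gn s a b c (n + 1)) = Gn (f s) (f a) (f b) (f c) (n + 1) := by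
      rw [Gn_succ, Gn_succ, ← h1, ← h2, ← h3, ← h4]; simp [f2]
    have hE : f (En s a b c (n + 1)) = En (f s) (f a) (f b) (f c) (n + 1) := by
      rw [En_succ, En_succ, ← h1, ← h2, ← h4]; simp
    refine ⟨?_, ?_, hG, hE⟩
    · rw [Nn_succ, Nn_succ, ← hG, ← hE, ← h1, ← h2]; simp [f2]
    · rw [Dn_succ, Dn_succ, ← hG, ← hE, ← h2]; simp [f2]

theorem inv1 {s a b c N D G E : R}
    (h : G * (2 * c * E + s * G) * (N ^ 2 - c ^ 2 * D ^ 2) -
      2 * (a - b) * (c * E + s * G) * E * N * D + (2 * c ^ 2 * (a + b) + s * (a - b) ^ 2) *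
        E ^ 2 * D ^ 2 = 0) {G' E' : R}
    (hG : G' = G * (N ^ 2 - c ^ 2 * D ^ 2) - 2 * (a - b) * N * D * E)
    (hE : E' = E * (N ^ 2 - c ^ 2 * D ^ 2)) :
    G' * (2 * c * E' + s * G') * (N ^ 2 - c ^ 2 * D ^ 2) +
      2 * (a - b) * (c * E' + s * G') * E' * N * D + (2 * c ^ 2 * (a + b) + s * (a - b) ^ 2) *
        E' ^ 2 * D ^ 2 = 0 := by
  obtain ⟨W, hW⟩ : ∃ W : R, W = N ^ 2 - c ^ 2 * D ^ 2 := ⟨_, rfl⟩
  rw [← hW] at h hG hE ⊢
  rw [hG, hE]
  linear_combination W ^ 2 * h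

theorem inv2 {s a b c N D G E : R}
    (h : G * (2 * c * E + s * G) * (N ^ 2 - c ^ 2 * D ^ 2) +
      2 * (a - b) * (c * E + s * G) * E * N * D + (2 * c ^ 2 * (a + b) + s * (a - b) ^ 2) *
        E ^ 2 * D ^ 2 = 0) {N' D' : R}
    (hN : N' = N * (G * (2 * c * E + s * G)) + 2 * (a - b) * D * (c * E + s * G) * E)
    (hD : D' = D * (G * (2 * c * E + s * G))) :
    G * (2 * c * E + s * G) * (N' ^ 2 - c ^ 2 * D' ^ 2) -
      2 * (a - b) * (c * E + s * G) * E * N' * D' + (2 * c ^ 2 * (a + b) + s * (a - b) ^ 2) *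
        E ^ 2 * D' ^ 2 = 0 := by
  obtain ⟨Q, hQ⟩ : ∃ Q : R, Q = G * (2 * c * E + s * G) := ⟨_, rfl⟩
  obtain ⟨V, hV⟩ : ∃ V : R, V = c * E + s * G := ⟨_, rfl⟩
  rw [← hQ, ← hV] at h hN ⊢
  rw [← hQ] at hD
  rw [hN, hD]
  linear_combination Q ^ 2 * h

theorem inv (s a b c : R) (n : ℕ) :
    Gn s a b c n * (2 * c * En s a b c n + s * Gn s a b c n) *
      (Nn s a b c n ^ 2 - c ^ 2 * Dn s a b c n ^ 2) -
      2 * (a - b) * (c * En s a b c n + s * Gn s a b c n) * En s a b c n * Nn s a b c n *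
        Dn s a b c n + (2 * c ^ 2 * (a + b) + s * (a - b) ^ 2) *
        En s a b c n ^ 2 * Dn s a b c n ^ 2 = 0 := by
  induction n with
  | zero =>
    rw [Nn_zero, Dn_zero, Gn_zero, En_zero]; ring
  | succ n ih =>
    exact inv2 (inv1 ih (Gn_succ s a b c n) (En_succ s a b c n)) (Nn_succ s a b c n)
      (Dn_succ s a b c n)

end ring

/-- The `n`-th good point. -/
def xn (s a b c : ℚ) (n : ℕ) : ℚ :=
  ((c * En s a b c n + s * Gn s a b c n) * Nn s a b c n / (En s a b c n * Dn s a b c n) -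
    s * (a - b) + c ^ 2) / (2 * c)

theorem good_xn {s a b c : ℚ} (hc : c ≠ 0) {n : ℕ} (h1 : Dn s a b c n ≠ 0) (h2 : En s a b c n ≠ 0) :
    Good (s * a) (s * b) c (xn s a b c n) := by
  have h := inv s a b c n
  unfold xn
  set N := Nn s a b c n
  set D := Dn s a b c n
  set G := Gn s a b c n
  set E := En s a b c n
  refine ⟨⟨((c * E + s * G) / E + N / D) / 2, ?_⟩, ⟨((c * E + s * G) / E - N / D) / 2, ?_⟩⟩
  · field_simp
    linear_combination s * h
  · field_simp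
    linear_combination s * h

theorem xn_ne {s a b c : ℚ} (hc : c ≠ 0) {i j : ℕ} (h1 : Dn s a b c i ≠ 0) (h2 : En s a b c i ≠ 0)
    (h3 : Dn s a b c j ≠ 0) (h4 : En s a b c j ≠ 0)
    (h : (c * En s a b c i + s * Gn s a b c i) * Nn s a b c i * (En s a b c j * Dn s a b c j) -
      (c * En s a b c j + s * Gn s a b c j) * Nn s a b c j * (En s a b c i * Dn s a b c i) ≠ 0) :
    xn s a b c i ≠ xn s a b c j := by
  intro he
  apply h
  unfold xn at he
  have h5 : (c * En s a b c i + s * Gn s a b c i) * Nn s a b c i / (En s a b c i * Dn s a b c i) =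
      (c * En s a b c j + s * Gn s a b c j) * Nn s a b c j / (En s a b c j * Dn s a b c j) := by
    have h6 : (2 * c) ≠ 0 := mul_ne_zero two_ne_zero hc
    have := (div_left_inj' h6).mp he
    linarith
  rw [div_eq_div_iff (mul_ne_zero h2 h1) (mul_ne_zero h4 h3)] at h5
  linear_combination h5

theorem pow_sub_ne {a b : ℚ} (ha : 0 < a) (hb : 0 < b) (hab : a ≠ b) (n : ℕ) :
    a ^ (n + 1) - b ^ (n + 1) ≠ 0 := by
  intro h
  exact hab ((pow_left_inj₀ ha.le hb.le (Nat.succ_ne_zero n)).mp (sub_eq_zero.mp h))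

/-- the degenerate sequence -/
theorem base_seq {a b c : ℚ} (ha : 0 < a) (hb : 0 < b) (hab : a ≠ b) (hc : c ≠ 0) (n : ℕ) :
    Dn 0 a b c n ≠ 0 ∧ En 0 a b c n ≠ 0 ∧
    Nn 0 a b c n = c * (a ^ (n + 1) + b ^ (n + 1)) / (a ^ (n + 1) - b ^ (n + 1)) * Dn 0 a b c n ∧
    Gn 0 a b c n = -((a ^ (n + 1) - b ^ (n + 1)) * (a ^ n - b ^ n)) / (2 * (a ^ n * b ^ n) * c) *
      En 0 a b c n := by
  induction n with
  | zero =>
    have h0 : a - b ≠ 0 := sub_ne_zero.mpr hab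
    refine ⟨?_, ?_, ?_, ?_⟩
    · rw [Dn_zero]; exact mul_ne_zero (mul_ne_zero two_ne_zero hc) h0
    · rw [En_zero]; exact one_ne_zero
    · rw [Nn_zero, Dn_zero]
      simp only [zero_add, pow_one]
      field_simp
      ring
    · rw [Gn_zero]; simp
  | succ n ih =>
    obtain ⟨hD, hE, hN, hG⟩ := ih
    have h1 := pow_sub_ne ha hb hab n
    have h2 := pow_sub_ne ha hb hab (n + 1)
    have eN := Nn_succ 0 a b c n
    have eD := Dn_succ 0 a b c n
    have eG := Gn_succ 0 a b c n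
    have eE := En_succ 0 a b c n
    obtain ⟨α, hα⟩ : ∃ α : ℚ, α = a ^ n := ⟨_, rfl⟩
    obtain ⟨β, hβ⟩ : ∃ β : ℚ, β = b ^ n := ⟨_, rfl⟩
    have hα0 : α ≠ 0 := by rw [hα]; positivity
    have hβ0 : β ≠ 0 := by rw [hβ]; positivity
    have ha0 : a ≠ 0 := ha.ne'
    have hb0 : b ≠ 0 := hb.ne'
    have pa1 : a ^ (n + 1) = a * α := by rw [hα, pow_succ]; ring
    have pb1 : b ^ (n + 1) = b * β := by rw [hβ, pow_succ]; ring
    have pa2 : a ^ (n + 1 + 1) = a ^ 2 * α := by rw [hα, pow_succ, pow_succ]; ring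
    have pb2 : b ^ (n + 1 + 1) = b ^ 2 * β := by rw [hβ, pow_succ, pow_succ]; ring
    rw [pa1, pb1, ← hα, ← hβ] at hG
    rw [pa1, pb1] at hN h1
    rw [pa2, pb2] at h2
    rw [pa2, pb2, pa1, pb1]
    obtain ⟨D, hDd⟩ : ∃ D : ℚ, D = Dn 0 a b c n := ⟨_, rfl⟩
    obtain ⟨E, hEd⟩ : ∃ E : ℚ, E = En 0 a b c n := ⟨_, rfl⟩
    rw [← hDd] at hD hN eN eD eG eE
    rw [← hEd] at hE hG eG eE
    rw [hN] at eN eG eE
    rw [hG] at eG
    have hW : (c * (a * α + b * β) / (a * α - b * β) * D) ^ 2 - c ^ 2 * D ^ 2 =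
        4 * a * b * α * β * c ^ 2 * D ^ 2 / (a * α - b * β) ^ 2 := by
      field_simp
      ring
    rw [hW] at eG eE
    have hE' : En 0 a b c (n + 1) ≠ 0 := by
      rw [eE]
      positivity
    have eG' : Gn 0 a b c (n + 1) = -((a ^ 2 * α - b ^ 2 * β) * (a * α - b * β)) /
        (2 * (a * α * (b * β)) * c) * En 0 a b c (n + 1) := by
      rw [eG, eE]
      field_simp
      ring
    have hG' : Gn 0 a b c (n + 1) ≠ 0 := by
      rw [eG']
      refine mul_ne_zero (div_ne_zero (neg_ne_zero.mpr (mul_ne_zero h2 h1)) ?_) hE'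
      positivity
    refine ⟨?_, hE', ?_, eG'⟩
    · rw [eD]
      refine mul_ne_zero hD (mul_ne_zero hG' ?_)
      rw [zero_mul, add_zero]
      exact mul_ne_zero (mul_ne_zero two_ne_zero hc) hE'
    · rw [eN, eD, eG']
      obtain ⟨E', hE'd⟩ : ∃ E' : ℚ, E' = En 0 a b c (n + 1) := ⟨_, rfl⟩
      rw [← hE'd]
      field_simp
      ring

theorem base_ne {a b c : ℚ} (ha : 0 < a) (hb : 0 < b) (hab : a ≠ b) (hc : c ≠ 0) {i j : ℕ}
    (hij : i ≠ j) :
    (c * En 0 a b c i + 0 * Gn 0 a b c i) * Nn 0 a b c i * (En 0 a b c j * Dn 0 a b c j) -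
      (c * En 0 a b c j + 0 * Gn 0 a b c j) * Nn 0 a b c j * (En 0 a b c i * Dn 0 a b c i) ≠ 0 := by
  obtain ⟨hDi, hEi, hNi, -⟩ := base_seq ha hb hab hc i
  obtain ⟨hDj, hEj, hNj, -⟩ := base_seq ha hb hab hc j
  have h1 := pow_sub_ne ha hb hab i
  have h2 := pow_sub_ne ha hb hab j
  rw [hNi, hNj]
  obtain ⟨A, hA⟩ : ∃ A : ℚ, A = a ^ (i + 1) := ⟨_, rfl⟩
  obtain ⟨B, hB⟩ : ∃ B : ℚ, B = b ^ (i + 1) := ⟨_, rfl⟩
  obtain ⟨A', hA'⟩ : ∃ A' : ℚ, A' = a ^ (j + 1) := ⟨_, rfl⟩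
  obtain ⟨B', hB'⟩ : ∃ B' : ℚ, B' = b ^ (j + 1) := ⟨_, rfl⟩
  have hne : A * B' ≠ A' * B := by
    rw [hA, hB, hA', hB']
    intro h
    apply hij
    have h3 : (a / b) ^ (i + 1) = (a / b) ^ (j + 1) := by
      rw [div_pow, div_pow, div_eq_div_iff (by positivity) (by positivity)]
      exact h
    have h4 := pow_right_injective₀ (a := a / b) (by positivity)
      (by intro h5; exact hab ((div_eq_one_iff_eq hb.ne').mp h5)) h3
    omega
  rw [← hA, ← hB] at h1 ⊢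
  rw [← hA', ← hB'] at h2 ⊢
  obtain ⟨E, hE⟩ : ∃ E : ℚ, E = En 0 a b c i := ⟨_, rfl⟩
  obtain ⟨D, hD⟩ : ∃ D : ℚ, D = Dn 0 a b c i := ⟨_, rfl⟩
  obtain ⟨E', hE'⟩ : ∃ E' : ℚ, E' = En 0 a b c j := ⟨_, rfl⟩
  obtain ⟨D', hD'⟩ : ∃ D' : ℚ, D' = Dn 0 a b c j := ⟨_, rfl⟩
  rw [← hE] at hEi
  rw [← hD] at hDi
  rw [← hE'] at hEj
  rw [← hD'] at hDj
  rw [← hE, ← hD, ← hE', ← hD']
  have key : (c * E + 0 * Gn 0 a b c i) * (c * (A + B) / (A - B) * D) * (E' * D') -
      (c * E' + 0 * Gn 0 a b c j) * (c * (A' + B') / (A' - B') * D') * (E * D) =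
      -2 * (A * B' - A' * B) * (c ^ 2 * E * D * E' * D') / ((A - B) * (A' - B')) := by
    field_simp
    ring
  rw [key]
  refine div_ne_zero (mul_ne_zero (mul_ne_zero (by norm_num) (sub_ne_zero.mpr hne)) ?_)
    (mul_ne_zero h1 h2)
  exact mul_ne_zero (mul_ne_zero (mul_ne_zero (mul_ne_zero (pow_ne_zero 2 hc) hEi) hDi) hEj) hDj

/-- generic non-vanishing along a polynomial path -/
theorem generic_path (S A B C : Polynomial ℚ) {x₀ : ℚ} (hS : S.eval x₀ = 0) (hA : 0 < A.eval x₀)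
    (hB : 0 < B.eval x₀) (hAB : A.eval x₀ ≠ B.eval x₀) (hC : C.eval x₀ ≠ 0) (N : ℕ)
    {l r : ℚ} (hlr : l < r) :
    ∃ x : ℚ, l < x ∧ x < r ∧ ∃ F : Finset ℚ, N ≤ F.card ∧
      ∀ y ∈ F, Good (S.eval x * A.eval x) (S.eval x * B.eval x) (C.eval x) y := by
  classical
  set cr : ℕ × ℕ → Polynomial ℚ := fun p =>
    (C * En S A B C p.1 + S * Gn S A B C p.1) * Nn S A B C p.1 * (En S A B C p.2 * Dn S A B C p.2) -
      (C * En S A B C p.2 + S * Gn S A B C p.2) * Nn S A B C p.2 *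
        (En S A B C p.1 * Dn S A B C p.1) with hcr
  set P : Polynomial ℚ := C * (∏ n ∈ Finset.range N, (Dn S A B C n * En S A B C n)) *
    ∏ p ∈ (Finset.range N).offDiag, cr p with hP
  have hN : ∀ (x : ℚ) (n : ℕ), (Nn S A B C n).eval x =
      Nn (S.eval x) (A.eval x) (B.eval x) (C.eval x) n :=
    fun x n => (map_seq (Polynomial.evalRingHom x) S A B C n).1
  have hD : ∀ (x : ℚ) (n : ℕ), (Dn S A B C n).eval x =
      Dn (S.eval x) (A.eval x) (B.eval x) (C.eval x) n :=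
    fun x n => (map_seq (Polynomial.evalRingHom x) S A B C n).2.1
  have hG : ∀ (x : ℚ) (n : ℕ), (Gn S A B C n).eval x =
      Gn (S.eval x) (A.eval x) (B.eval x) (C.eval x) n :=
    fun x n => (map_seq (Polynomial.evalRingHom x) S A B C n).2.2.1
  have hE : ∀ (x : ℚ) (n : ℕ), (En S A B C n).eval x =
      En (S.eval x) (A.eval x) (B.eval x) (C.eval x) n :=
    fun x n => (map_seq (Polynomial.evalRingHom x) S A B C n).2.2.2
  have hcre : ∀ (x : ℚ) (p : ℕ × ℕ), (cr p).eval x =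
      (C.eval x * En (S.eval x) (A.eval x) (B.eval x) (C.eval x) p.1 +
        S.eval x * Gn (S.eval x) (A.eval x) (B.eval x) (C.eval x) p.1) *
        Nn (S.eval x) (A.eval x) (B.eval x) (C.eval x) p.1 *
        (En (S.eval x) (A.eval x) (B.eval x) (C.eval x) p.2 *
          Dn (S.eval x) (A.eval x) (B.eval x) (C.eval x) p.2) -
      (C.eval x * En (S.eval x) (A.eval x) (B.eval x) (C.eval x) p.2 +
        S.eval x * Gn (S.eval x) (A.eval x) (B.eval x) (C.eval x) p.2) *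
        Nn (S.eval x) (A.eval x) (B.eval x) (C.eval x) p.2 *
        (En (S.eval x) (A.eval x) (B.eval x) (C.eval x) p.1 *
          Dn (S.eval x) (A.eval x) (B.eval x) (C.eval x) p.1) := by
    intro x p
    simp only [hcr, Polynomial.eval_mul, Polynomial.eval_sub, Polynomial.eval_add, hN, hD, hG, hE]
  have heval : ∀ x : ℚ, P.eval x = C.eval x * (∏ n ∈ Finset.range N,
      (Dn (S.eval x) (A.eval x) (B.eval x) (C.eval x) n *
        En (S.eval x) (A.eval x) (B.eval x) (C.eval x) n)) *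
      ∏ p ∈ (Finset.range N).offDiag, (cr p).eval x := by
    intro x
    rw [hP]
    simp only [Polynomial.eval_mul, Polynomial.eval_prod, hD, hE]
  have hP0 : P ≠ 0 := by
    intro h
    have h1 := heval x₀
    rw [h, Polynomial.eval_zero, hS] at h1
    have h2 := h1.symm
    rw [mul_eq_zero, mul_eq_zero] at h2
    rcases h2 with (h2 | h2) | h2
    · exact hC h2
    · rw [Finset.prod_eq_zero_iff] at h2
      obtain ⟨n, _, hn⟩ := h2
      obtain ⟨k1, k2, -⟩ := base_seq hA hB hAB hC n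
      exact mul_ne_zero k1 k2 hn
    · rw [Finset.prod_eq_zero_iff] at h2
      obtain ⟨p, hp, hn⟩ := h2
      rw [hcre, hS] at hn
      exact base_ne hA hB hAB hC (Finset.mem_offDiag.mp hp).2.2 hn
  have hinf : (Set.Ioo l r).Infinite := Set.Ioo_infinite hlr
  have hfin : {x : ℚ | P.IsRoot x}.Finite := Polynomial.finite_setOfPred_isRoot hP0
  obtain ⟨x, hx, hxP⟩ := (hinf.sdiff hfin).nonempty
  have hx0 : P.eval x ≠ 0 := hxP
  rw [heval x] at hx0
  have h1 := left_ne_zero_of_mul hx0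
  have h2 := right_ne_zero_of_mul hx0
  have hCx := left_ne_zero_of_mul h1
  have hDE : ∀ n, n < N → Dn (S.eval x) (A.eval x) (B.eval x) (C.eval x) n ≠ 0 ∧
      En (S.eval x) (A.eval x) (B.eval x) (C.eval x) n ≠ 0 := by
    intro n hn
    have h3 : Dn (S.eval x) (A.eval x) (B.eval x) (C.eval x) n *
        En (S.eval x) (A.eval x) (B.eval x) (C.eval x) n ≠ 0 := by
      intro h
      exact right_ne_zero_of_mul h1 (Finset.prod_eq_zero (Finset.mem_range.mpr hn) h)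
    exact ⟨left_ne_zero_of_mul h3, right_ne_zero_of_mul h3⟩
  refine ⟨x, hx.1, hx.2,
    (Finset.range N).image (fun n => xn (S.eval x) (A.eval x) (B.eval x) (C.eval x) n), ?_, ?_⟩
  · rw [Finset.card_image_of_injOn, Finset.card_range]
    intro i hi j hj hij
    by_contra hcon
    have hi' := Finset.mem_range.mp (Finset.mem_coe.mp hi)
    have hj' := Finset.mem_range.mp (Finset.mem_coe.mp hj)
    refine xn_ne hCx (hDE i hi').1 (hDE i hi').2 (hDE j hj').1 (hDE j hj').2 ?_ hij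
    intro h
    refine h2 (Finset.prod_eq_zero (i := (i, j)) (Finset.mem_offDiag.mpr
      ⟨Finset.mem_range.mpr hi', Finset.mem_range.mpr hj', hcon⟩) ?_)
    rw [hcre]
    exact h
  · intro y hy
    obtain ⟨n, hn, rfl⟩ := Finset.mem_image.mp hy
    have hn' := Finset.mem_range.mp hn
    exact good_xn hCx (hDE n hn').1 (hDE n hn').2

end Pool.Agent.H52R
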