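import Pool.Agent.H52R.Core6

set_option autoImplicit false

open scoped RealInnerProductSpace Topology

namespace Pool.Agent.H52R

section general
variable {E : Type*} [NormedAddCommGroup E] [InnerProductSpace ℝ E]

theorem rat_smul {x : E} {k : ℝ} {y : E} {c : ℚ} (h : x = k • y) (hk : k = (c:ℝ))
    (hy : ∃ r : ℚ, ‖y‖ = r) : ∃ r : ℚ, ‖x‖ = r := by
  obtain ⟨r, hr⟩ := hy
  refine ⟨|c| * r, ?_⟩
  rw [h, norm_smul, hr, hk, Real.norm_eq_abs]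
  push_cast
  ring

theorem gram_change {u v : E} (hG : ⟪u, v⟫ ^ 2 < ‖u‖ ^ 2 * ‖v‖ ^ 2) {a b c d : ℝ}
    (hdet : a * d - b * c ≠ 0) :
    ⟪a • u + b • v, c • u + d • v⟫ ^ 2 < ‖a • u + b • v‖ ^ 2 * ‖c • u + d • v‖ ^ 2 := by
  have e1 : ∀ x y : ℝ, ‖x • u + y • v‖ ^ 2 = x ^ 2 * ‖u‖ ^ 2 + 2 * x * y * ⟪u, v⟫ + y ^ 2 * ‖v‖ ^ 2 := by
    intro x y
    rw [norm_add_sq_real, norm_smul, norm_smul, inner_smul_left, inner_smul_right, mul_pow, mul_pow,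
      Real.norm_eq_abs, Real.norm_eq_abs, sq_abs, sq_abs]
    simp only [conj_trivial]
    ring
  have e2 : ⟪a • u + b • v, c • u + d • v⟫ = a * c * ‖u‖ ^ 2 + (a * d + b * c) * ⟪u, v⟫ +
      b * d * ‖v‖ ^ 2 := by
    rw [inner_add_left, inner_add_right, inner_add_right, inner_smul_left, inner_smul_left,
      inner_smul_left, inner_smul_left, inner_smul_right, inner_smul_right, inner_smul_right,
      inner_smul_right, real_inner_self_eq_norm_sq, real_inner_self_eq_norm_sq, real_inner_comm u v]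
    simp only [conj_trivial]
    ring
  rw [e1, e1, e2]
  have h3 : 0 < (a * d - b * c) ^ 2 * (‖u‖ ^ 2 * ‖v‖ ^ 2 - ⟪u, v⟫ ^ 2) := by
    apply mul_pos (by positivity)
    linarith
  linarith

theorem six_ord {u v : E} (hG : ⟪u, v⟫ ^ 2 < ‖u‖ ^ 2 * ‖v‖ ^ 2) {t₁ t₂ t₃ t₄ t₅ t₆ : ℚ}
    (h12 : t₁ < t₂) (h23 : t₂ < t₃) (h34 : t₃ < t₄) (h45 : t₄ < t₅) (h56 : t₅ < t₆)
    {ε : ℝ} (hε : 0 < ε) :
    ∃ u' v' : E, ‖u' - u‖ < ε ∧ ‖v' - v‖ < ε ∧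
      ∀ t : ℚ, t = t₁ ∨ t = t₂ ∨ t = t₃ ∨ t = t₄ ∨ t = t₅ ∨ t = t₆ →
        ∃ r : ℚ, ‖u' + (t:ℝ) • v'‖ = r := by
  have g31 : 0 < t₃ - t₁ := by linarith
  have g41 : 0 < t₄ - t₁ := by linarith
  have g43 : 0 < t₄ - t₃ := by linarith
  have g32 : 0 < t₃ - t₂ := by linarith
  have g42 : 0 < t₄ - t₂ := by linarith
  have g21 : 0 < t₂ - t₁ := by linarith
  have g53 : 0 < t₅ - t₃ := by linarith
  have g54 : 0 < t₅ - t₄ := by linarith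
  have g63 : 0 < t₆ - t₃ := by linarith
  have g64 : 0 < t₆ - t₄ := by linarith
  have g65 : 0 < t₆ - t₅ := by linarith
  have R31 : (0:ℝ) < (t₃:ℝ) - t₁ := by exact_mod_cast g31
  have R41 : (0:ℝ) < (t₄:ℝ) - t₁ := by exact_mod_cast g41
  have R43 : (0:ℝ) < (t₄:ℝ) - t₃ := by exact_mod_cast g43
  obtain ⟨z, hz⟩ : ∃ z : ℚ → ℚ, z = fun t => (t₃ - t) * (t₄ - t₁) / ((t₃ - t₁) * (t₄ - t)) :=
    ⟨_, rfl⟩
  have hz1 : z t₁ = 1 := by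
    rw [hz]
    simp only
    rw [div_eq_one_iff_eq (by positivity)]
  have hz2 : 0 < z t₂ := by rw [hz]; simp only; positivity
  have hz2' : z t₂ < 1 := by
    rw [hz]
    simp only
    rw [div_lt_one (by positivity)]
    nlinarith [mul_pos g21 g43]
  have e6 : z t₆ = (t₆ - t₃) * (t₄ - t₁) / ((t₃ - t₁) * (t₆ - t₄)) := by
    rw [hz]
    simp only
    rw [div_eq_div_iff (mul_ne_zero g31.ne' (by linarith : t₄ - t₆ < 0).ne) (by positivity)]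
    ring
  have e5 : z t₅ = (t₅ - t₃) * (t₄ - t₁) / ((t₃ - t₁) * (t₅ - t₄)) := by
    rw [hz]
    simp only
    rw [div_eq_div_iff (mul_ne_zero g31.ne' (by linarith : t₄ - t₅ < 0).ne) (by positivity)]
    ring
  have hz6 : 1 < z t₆ := by
    rw [e6, one_lt_div (by positivity)]
    nlinarith [mul_pos g43 g63, mul_pos g43 g31]
  have hz65 : z t₆ < z t₅ := by
    rw [e6, e5, div_lt_div_iff₀ (by positivity) (by positivity)]
    have h1 : (t₆ - t₃) * (t₅ - t₄) < (t₅ - t₃) * (t₆ - t₄) := by nlinarith [mul_pos g65 g43]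
    have h2 : 0 < (t₄ - t₁) * (t₃ - t₁) := mul_pos g41 g31
    calc (t₆ - t₃) * (t₄ - t₁) * ((t₃ - t₁) * (t₅ - t₄)) =
        ((t₄ - t₁) * (t₃ - t₁)) * ((t₆ - t₃) * (t₅ - t₄)) := by ring
      _ < ((t₄ - t₁) * (t₃ - t₁)) * ((t₅ - t₃) * (t₆ - t₄)) := mul_lt_mul_of_pos_left h1 h2
      _ = _ := by ring
  -- new basis
  obtain ⟨e₁, he₁⟩ : ∃ e₁ : E, e₁ = ((t₄:ℝ) - t₁) • u + (((t₄:ℝ) - t₁) * t₃) • v := ⟨_, rfl⟩
  obtain ⟨e₂, he₂⟩ : ∃ e₂ : E, e₂ = ((t₃:ℝ) - t₁) • u + (((t₃:ℝ) - t₁) * t₄) • v := ⟨_, rfl⟩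
  have hG' : ⟪e₁, e₂⟫ ^ 2 < ‖e₁‖ ^ 2 * ‖e₂‖ ^ 2 := by
    rw [he₁, he₂]
    apply gram_change hG
    have : ((t₄:ℝ) - t₁) * (((t₃:ℝ) - t₁) * t₄) - ((t₄:ℝ) - t₁) * t₃ * ((t₃:ℝ) - t₁) =
        ((t₄:ℝ) - t₁) * ((t₃:ℝ) - t₁) * ((t₄:ℝ) - t₃) := by ring
    rw [this]
    positivity
  have hcont : Continuous (fun x : E × E =>
      (((t₄:ℝ) / (((t₄:ℝ) - t₁) * ((t₄:ℝ) - t₃))) • x.1 -
        ((t₃:ℝ) / (((t₃:ℝ) - t₁) * ((t₄:ℝ) - t₃))) • x.2,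
      (1 / (((t₃:ℝ) - t₁) * ((t₄:ℝ) - t₃))) • x.2 -
        (1 / (((t₄:ℝ) - t₁) * ((t₄:ℝ) - t₃))) • x.1)) := by
    fun_prop
  obtain ⟨δ, hδ, hcl⟩ := Metric.continuousAt_iff.mp (hcont.continuousAt (x := (e₁, e₂))) ε hε
  obtain ⟨f₁, f₂, hf1, hf2, r1, r2, r3, r4, r5, r6⟩ := core6 hG' hz2 hz2' hz6 hz65 hδ
  have hd := hcl (x := (f₁, f₂)) (by
    rw [Prod.dist_eq, max_lt_iff, dist_eq_norm, dist_eq_norm]
    exact ⟨hf1, hf2⟩)
  have b1 : ((t₄:ℝ) / (((t₄:ℝ) - t₁) * ((t₄:ℝ) - t₃))) • e₁ -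
        ((t₃:ℝ) / (((t₃:ℝ) - t₁) * ((t₄:ℝ) - t₃))) • e₂ = u := by
    rw [he₁, he₂]
    match_scalars
    · field_simp
    · field_simp
      ring
  have b2 : (1 / (((t₃:ℝ) - t₁) * ((t₄:ℝ) - t₃))) • e₂ -
        (1 / (((t₄:ℝ) - t₁) * ((t₄:ℝ) - t₃))) • e₁ = v := by
    rw [he₁, he₂]
    match_scalars
    · field_simp
      ring
    · field_simp
  simp only [b1, b2] at hd
  rw [Prod.dist_eq, max_lt_iff, dist_eq_norm, dist_eq_norm] at hd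
  refine ⟨_, _, hd.1, hd.2, ?_⟩
  -- the formula
  have hform : ∀ t : ℚ, t₄ - t ≠ 0 → (∃ r : ℚ, ‖f₁ - ((z t : ℚ):ℝ) • f₂‖ = r) →
      ∃ r : ℚ, ‖((t₄:ℝ) / (((t₄:ℝ) - t₁) * ((t₄:ℝ) - t₃))) • f₁ -
        ((t₃:ℝ) / (((t₃:ℝ) - t₁) * ((t₄:ℝ) - t₃))) • f₂ +
        (t:ℝ) • ((1 / (((t₃:ℝ) - t₁) * ((t₄:ℝ) - t₃))) • f₂ -
        (1 / (((t₄:ℝ) - t₁) * ((t₄:ℝ) - t₃))) • f₁)‖ = r := by
    intro t ht hr
    have htR : (t₄:ℝ) - t ≠ 0 := by exact_mod_cast ht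
    refine rat_smul (k := ((t₄:ℝ) - t) / (((t₄:ℝ) - t₁) * ((t₄:ℝ) - t₃)))
      (c := (t₄ - t) / ((t₄ - t₁) * (t₄ - t₃))) ?_ (by push_cast; ring) hr
    rw [hz]
    simp only
    push_cast
    match_scalars
    · field_simp
      ring
    · field_simp
      ring
  intro t ht
  rcases ht with h | h | h | h | h | h <;> rw [h]
  · apply hform t₁ g41.ne'
    rw [hz1]; exact r3
  · exact hform t₂ g42.ne' r5
  · apply hform t₃ g43.ne'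
    have h0 : z t₃ = 0 := by rw [hz]; simp
    rw [h0, Rat.cast_zero, zero_smul, sub_zero]
    exact r1
  · refine rat_smul (k := 1 / ((t₃:ℝ) - t₁)) (c := 1 / (t₃ - t₁)) (y := f₂) ?_ (by push_cast; ring) r2
    match_scalars
    · field_simp
      ring
    · field_simp
      ring
  · exact hform t₅ (by linarith : t₄ - t₅ < 0).ne r6
  · exact hform t₆ (by linarith : t₄ - t₆ < 0).ne r4

theorem six_finset {u v : E} (hG : ⟪u, v⟫ ^ 2 < ‖u‖ ^ 2 * ‖v‖ ^ 2) (T : Finset ℚ) (hT : T.card = 6)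
    {ε : ℝ} (hε : 0 < ε) :
    ∃ u' v' : E, ‖u' - u‖ < ε ∧ ‖v' - v‖ < ε ∧ ∀ t ∈ T, ∃ r : ℚ, ‖u' + (t:ℝ) • v'‖ = r := by
  have hlt : ∀ i j : Fin 6, i < j → T.orderEmbOfFin hT i < T.orderEmbOfFin hT j := fun i j h =>
    (T.orderEmbOfFin hT).strictMono h
  obtain ⟨u', v', h1, h2, h3⟩ := six_ord hG (hlt 0 1 (by decide)) (hlt 1 2 (by decide))
    (hlt 2 3 (by decide)) (hlt 3 4 (by decide)) (hlt 4 5 (by decide)) hε
  refine ⟨u', v', h1, h2, ?_⟩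
  intro t ht
  apply h3
  have : t ∈ Set.range (T.orderEmbOfFin hT) := by
    rw [Finset.range_orderEmbOfFin]; exact ht
  obtain ⟨i, hi⟩ := this
  fin_cases i
  · exact Or.inl hi.symm
  · exact Or.inr (Or.inl hi.symm)
  · exact Or.inr (Or.inr (Or.inl hi.symm))
  · exact Or.inr (Or.inr (Or.inr (Or.inl hi.symm)))
  · exact Or.inr (Or.inr (Or.inr (Or.inr (Or.inl hi.symm))))
  · exact Or.inr (Or.inr (Or.inr (Or.inr (Or.inr hi.symm))))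

theorem six_dirs_indep {u v : E} (hG : ⟪u, v⟫ ^ 2 < ‖u‖ ^ 2 * ‖v‖ ^ 2) (D : Finset (ℚ × ℚ))
    (hD : D.card ≤ 6) (hD0 : ∀ d ∈ D, d ≠ 0) {ε : ℝ} (hε : 0 < ε) :
    ∃ u' v' : E, ‖u' - u‖ < ε ∧ ‖v' - v‖ < ε ∧
      ∀ d ∈ D, ∃ r : ℚ, ‖(d.1:ℝ) • u' + (d.2:ℝ) • v'‖ = r := by
  classical
  obtain ⟨k, hk⟩ := Infinite.exists_notMem_finset (D.image (fun d => -d.1 / d.2))
  have hk' : ∀ d ∈ D, d.1 + k * d.2 ≠ 0 := by
    intro d hd h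
    by_cases h2 : d.2 = 0
    · rw [h2, mul_zero, add_zero] at h
      exact hD0 d hd (Prod.ext h h2)
    · apply hk
      refine Finset.mem_image.mpr ⟨d, hd, ?_⟩
      rw [div_eq_iff h2]
      linear_combination -h
  obtain ⟨T, hDT, hT⟩ := Infinite.exists_superset_card_eq
    (D.image (fun d => d.2 / (d.1 + k * d.2))) 6 (Finset.card_image_le.trans hD)
  have hG' : ⟪u, v - (k:ℝ) • u⟫ ^ 2 < ‖u‖ ^ 2 * ‖v - (k:ℝ) • u‖ ^ 2 := by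
    have := gram_change hG (a := 1) (b := 0) (c := -k) (d := 1) (by norm_num)
    have e1 : (1:ℝ) • u + (0:ℝ) • v = u := by simp
    have e2 : (-(k:ℝ)) • u + (1:ℝ) • v = v - (k:ℝ) • u := by rw [neg_smul, one_smul]; abel
    rwa [e1, e2] at this
  have hcont : Continuous (fun x : E × E => (x.1, x.2 + (k:ℝ) • x.1)) := by fun_prop
  obtain ⟨δ, hδ, hcl⟩ :=
    Metric.continuousAt_iff.mp (hcont.continuousAt (x := (u, v - (k:ℝ) • u))) ε hε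
  obtain ⟨u', v', h1, h2, h3⟩ := six_finset hG' T hT hδ
  have hd := hcl (x := (u', v')) (by
    rw [Prod.dist_eq, max_lt_iff, dist_eq_norm, dist_eq_norm]
    exact ⟨h1, h2⟩)
  simp only [sub_add_cancel] at hd
  rw [Prod.dist_eq, max_lt_iff, dist_eq_norm, dist_eq_norm] at hd
  refine ⟨u', v' + (k:ℝ) • u', hd.1, hd.2, ?_⟩
  intro d hd
  have hne := hk' d hd
  have hneR : (d.1:ℝ) + k * d.2 ≠ 0 := by exact_mod_cast hne
  have hneR' : (d.1:ℝ) + d.2 * k ≠ 0 := by rw [mul_comm (d.2:ℝ)]; exact hneR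
  refine rat_smul (k := (d.1:ℝ) + k * d.2) (c := d.1 + k * d.2) ?_ (by push_cast; ring)
    (h3 (d.2 / (d.1 + k * d.2)) (hDT (Finset.mem_image.mpr ⟨d, hd, rfl⟩)))
  push_cast
  match_scalars
  · ring
  · field_simp

end general

/-- perturbation to a basis -/
theorem exists_indep (u v : EuclideanSpace ℝ (Fin 2)) {ε : ℝ} (hε : 0 < ε) :
    ∃ u' v' : EuclideanSpace ℝ (Fin 2), ‖u' - u‖ < ε ∧ ‖v' - v‖ < ε ∧
      ⟪u', v'⟫ ^ 2 < ‖u'‖ ^ 2 * ‖v'‖ ^ 2 := by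
  have hn : ∀ w : EuclideanSpace ℝ (Fin 2), ‖w‖ ^ 2 = w 0 ^ 2 + w 1 ^ 2 := by
    intro w
    rw [EuclideanSpace.norm_sq_eq, Fin.sum_univ_two]
    simp only [Real.norm_eq_abs, sq_abs]
  have hi : ∀ w z : EuclideanSpace ℝ (Fin 2), ⟪w, z⟫ = w 0 * z 0 + w 1 * z 1 := by
    intro w z
    rw [PiLp.inner_apply, Fin.sum_univ_two]
    simp
    ring
  obtain ⟨E₀, hE₀⟩ : ∃ E₀ : EuclideanSpace ℝ (Fin 2), E₀ = !₂[1, 0] := ⟨_, rfl⟩
  obtain ⟨E₁, hE₁⟩ : ∃ E₁ : EuclideanSpace ℝ (Fin 2), E₁ = !₂[0, 1] := ⟨_, rfl⟩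
  have n0 : ‖E₀‖ = 1 := by rw [hE₀, EuclideanSpace.norm_eq, Fin.sum_univ_two]; simp
  have n1 : ‖E₁‖ = 1 := by rw [hE₁, EuclideanSpace.norm_eq, Fin.sum_univ_two]; simp
  obtain ⟨s, hs0, hsε, hs⟩ : ∃ s : ℝ, 0 < s ∧ s < ε ∧ (u 0 + s) * (v 1 + s) - u 1 * v 0 ≠ 0 := by
    by_contra hcon
    push Not at hcon
    have h1 := hcon (ε / 2) (by positivity) (by linarith)
    have h2 := hcon (ε / 3) (by positivity) (by linarith)
    have h3 := hcon (ε / 4) (by positivity) (by linarith)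
    have h4 : (ε / 2 - ε / 3) * (ε / 2 + ε / 3 + u 0 + v 1) = 0 := by linear_combination h1 - h2
    have h5 : (ε / 2 - ε / 4) * (ε / 2 + ε / 4 + u 0 + v 1) = 0 := by linear_combination h1 - h3
    have h6 : ε / 2 + ε / 3 + u 0 + v 1 = 0 := by
      rcases mul_eq_zero.mp h4 with h | h
      · linarith
      · exact h
    have h7 : ε / 2 + ε / 4 + u 0 + v 1 = 0 := by
      rcases mul_eq_zero.mp h5 with h | h
      · linarith
      · exact h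
    linarith
  refine ⟨u + s • E₀, v + s • E₁, ?_, ?_, ?_⟩
  · rw [add_sub_cancel_left, norm_smul, n0, mul_one, Real.norm_eq_abs, abs_of_pos hs0]
    exact hsε
  · rw [add_sub_cancel_left, norm_smul, n1, mul_one, Real.norm_eq_abs, abs_of_pos hs0]
    exact hsε
  · rw [hn, hn, hi, hE₀, hE₁]
    simp only [PiLp.add_apply, PiLp.smul_apply]
    simp
    have : 0 < ((u 0 + s) * (v 1 + s) - u 1 * v 0) ^ 2 := by positivity
    linarith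

theorem six_dirs (u v : EuclideanSpace ℝ (Fin 2)) (D : Finset (ℚ × ℚ))
    (hD : D.card ≤ 6) (hD0 : ∀ d ∈ D, d ≠ 0) {ε : ℝ} (hε : 0 < ε) :
    ∃ u' v' : EuclideanSpace ℝ (Fin 2), ‖u' - u‖ < ε ∧ ‖v' - v‖ < ε ∧
      ∀ d ∈ D, ∃ r : ℚ, ‖(d.1:ℝ) • u' + (d.2:ℝ) • v'‖ = r := by
  obtain ⟨u₁, v₁, h1, h2, h3⟩ := exists_indep u v (half_pos hε)
  obtain ⟨u', v', h4, h5, h6⟩ := six_dirs_indep h3 D hD hD0 (half_pos hε)
  refine ⟨u', v', ?_, ?_, h6⟩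
  · have := norm_sub_le_norm_sub_add_norm_sub u' u₁ u
    linarith
  · have := norm_sub_le_norm_sub_add_norm_sub v' v₁ v
    linarith

theorem six_family {ι : Type*} [Finite ι] (o u v : EuclideanSpace ℝ (Fin 2)) (a b : ι → ℚ)
    (D : Finset (ℚ × ℚ)) (hD : D.card ≤ 6) (hD0 : ∀ d ∈ D, d ≠ 0)
    (h : ∀ i j, ∃ d ∈ D, (a i - a j) * d.2 = (b i - b j) * d.1) {ε : ℝ} (hε : 0 < ε) :
    ∃ u' v' : EuclideanSpace ℝ (Fin 2), dist u u' < ε ∧ dist v v' < ε ∧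
      (∀ i, dist (o + (a i : ℝ) • u + (b i : ℝ) • v) (o + (a i : ℝ) • u' + (b i : ℝ) • v') < ε) ∧
      ∀ i j, ∃ r : ℚ,
        dist (o + (a i : ℝ) • u' + (b i : ℝ) • v') (o + (a j : ℝ) • u' + (b j : ℝ) • v') = r := by
  have hev : ∀ᶠ x in 𝓝 (u, v), ∀ i, dist (o + (a i : ℝ) • u + (b i : ℝ) • v)
      (o + (a i : ℝ) • x.1 + (b i : ℝ) • x.2) < ε := by
    rw [Filter.eventually_all]
    intro i
    have hc : ContinuousAt (fun x : EuclideanSpace ℝ (Fin 2) × EuclideanSpace ℝ (Fin 2) =>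
      dist (o + (a i : ℝ) • u + (b i : ℝ) • v) (o + (a i : ℝ) • x.1 + (b i : ℝ) • x.2)) (u, v) := by
      fun_prop
    apply hc.eventually_lt continuousAt_const
    simpa using hε
  obtain ⟨δ, hδ, hcl⟩ := Metric.eventually_nhds_iff.mp hev
  obtain ⟨u', v', h1, h2, h3⟩ := six_dirs u v D hD hD0 (lt_min hδ hε)
  rw [lt_min_iff] at h1 h2
  refine ⟨u', v', ?_, ?_, ?_, ?_⟩
  · rw [dist_comm, dist_eq_norm]; exact h1.2
  · rw [dist_comm, dist_eq_norm]; exact h2.2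
  · apply hcl (y := (u', v'))
    rw [Prod.dist_eq, max_lt_iff, dist_eq_norm, dist_eq_norm]
    exact ⟨h1.1, h2.1⟩
  · intro i j
    obtain ⟨d, hd, hij⟩ := h i j
    obtain ⟨c, hc1, hc2⟩ : ∃ c : ℚ, a i - a j = c * d.1 ∧ b i - b j = c * d.2 := by
      by_cases h0 : d.1 = 0
      · have h0' : d.2 ≠ 0 := fun h => hD0 d hd (Prod.ext h0 h)
        refine ⟨(b i - b j) / d.2, ?_, by field_simp⟩
        rw [h0, mul_zero] at hij ⊢
        exact (mul_eq_zero.mp hij).resolve_right h0'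
      · refine ⟨(a i - a j) / d.1, by field_simp, ?_⟩
        field_simp
        linear_combination -hij
    rw [dist_eq_norm]
    refine rat_smul (k := (c:ℝ)) (c := c) ?_ rfl (h3 d hd)
    have hc1' : (a i : ℝ) - a j = c * d.1 := by exact_mod_cast hc1
    have hc2' : (b i : ℝ) - b j = c * d.2 := by exact_mod_cast hc2
    calc o + (a i : ℝ) • u' + (b i : ℝ) • v' - (o + (a j : ℝ) • u' + (b j : ℝ) • v') =
        ((a i : ℝ) - a j) • u' + ((b i : ℝ) - b j) • v' := by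
          rw [sub_smul, sub_smul]; abel
      _ = _ := by rw [hc1', hc2', smul_add, smul_smul, smul_smul]

end Pool.Agent.H52R
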