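import Pool.Agent.H52R.Cubic

set_option autoImplicit false

namespace Pool.Agent.H52R

/-- the pure inequality part -/
theorem delta_bounds {A B t t₀ p K μ σ₀ Δ : ℚ}
    (hσ₀ : σ₀ = 1 ∨ σ₀ = -1) (hK : 1 ≤ K) (hA : 0 < A) (hA' : A ≤ K) (hB : 0 < B) (hB' : B ≤ K)
    (ht : 0 < t) (ht' : 1 ≤ K * t) (hp : 0 < p) (hp1 : 1 ≤ K * p) (hp2 : p ≤ K)
    (htt1 : t ≤ 2 * (t - t₀)) (htt2 : 2 * (t - t₀) ≤ 3 * t) (hμ : 4 * K ^ 3 ≤ μ)
    (key : Δ * (μ * (μ - σ₀) * (t - t₀) * t * p) =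
      μ * t ^ 2 * (p ^ 2 + B) - σ₀ * p ^ 2 * (t ^ 2 + A)) :
    2 ≤ 9 * K * μ * Δ ∧ μ * Δ ≤ 12 * K ^ 2 := by
  have hK0 : 0 < K := by linarith
  have hK3 : 1 ≤ K ^ 3 := one_le_pow₀ hK
  have hK2 : 1 ≤ K ^ 2 := one_le_pow₀ hK
  have hμ0 : 0 < μ := lt_of_lt_of_le (by positivity) hμ
  have hμ4 : 4 ≤ μ := by linarith
  have hKt : 1 ≤ (K * t) ^ 2 := one_le_pow₀ ht'
  have hN : 2 * (p ^ 2 * (t ^ 2 + A)) ≤ μ * t ^ 2 * (p ^ 2 + B) := by
    have e1 : t ^ 2 + A ≤ 2 * K ^ 3 * t ^ 2 := by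
      have h1 : A ≤ K * (K * t) ^ 2 := by
        calc A ≤ K * 1 := by linarith
          _ ≤ _ := mul_le_mul_of_nonneg_left hKt hK0.le
      have h2 : t ^ 2 ≤ K ^ 3 * t ^ 2 := le_mul_of_one_le_left (sq_nonneg t) hK3
      calc t ^ 2 + A ≤ K ^ 3 * t ^ 2 + K * (K * t) ^ 2 := by linarith
        _ = 2 * K ^ 3 * t ^ 2 := by ring
    have e2 : 2 * (t ^ 2 + A) ≤ μ * t ^ 2 := by
      have h2 : 4 * K ^ 3 * t ^ 2 ≤ μ * t ^ 2 := mul_le_mul_of_nonneg_right hμ (sq_nonneg t)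
      linarith
    calc 2 * (p ^ 2 * (t ^ 2 + A)) = p ^ 2 * (2 * (t ^ 2 + A)) := by ring
      _ ≤ p ^ 2 * (μ * t ^ 2) := mul_le_mul_of_nonneg_left e2 (sq_nonneg p)
      _ ≤ μ * t ^ 2 * (p ^ 2 + B) := by
        have : 0 ≤ μ * t ^ 2 * B := by positivity
        linarith
  have hB1 : μ ≤ 2 * (μ - σ₀) := by rcases hσ₀ with h' | h' <;> rw [h'] <;> linarith
  have hB2 : 2 * (μ - σ₀) ≤ 3 * μ := by rcases hσ₀ with h' | h' <;> rw [h'] <;> linarith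
  have hpos : 0 ≤ p ^ 2 * (t ^ 2 + A) := by positivity
  obtain ⟨num, hnum⟩ : ∃ num : ℚ, num = μ * t ^ 2 * (p ^ 2 + B) - σ₀ * p ^ 2 * (t ^ 2 + A) := ⟨_, rfl⟩
  have hlo : μ * t ^ 2 * (p ^ 2 + B) ≤ 2 * num := by
    rw [hnum]
    rcases hσ₀ with h' | h' <;> rw [h'] <;> linarith
  have hhi : 2 * num ≤ 3 * (μ * t ^ 2 * (p ^ 2 + B)) := by
    rw [hnum]
    rcases hσ₀ with h' | h' <;> rw [h'] <;> linarith
  obtain ⟨Den, hDen⟩ : ∃ Den : ℚ, Den = μ * (μ - σ₀) * (t - t₀) * t * p := ⟨_, rfl⟩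
  have h2 : 0 ≤ μ * t * p := by positivity
  have hDlo : μ * μ * t * t * p ≤ 4 * Den := by
    have h1 : μ * t ≤ (2 * (μ - σ₀)) * (2 * (t - t₀)) := mul_le_mul hB1 htt1 ht.le (by linarith)
    have h3 := mul_le_mul_of_nonneg_left h1 h2
    calc μ * μ * t * t * p = μ * t * p * (μ * t) := by ring
      _ ≤ _ := h3
      _ = 4 * Den := by rw [hDen]; ring
  have hDhi : 4 * Den ≤ 9 * (μ * μ * t * t * p) := by
    have h1 : (2 * (μ - σ₀)) * (2 * (t - t₀)) ≤ (3 * μ) * (3 * t) :=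
      mul_le_mul hB2 htt2 (by linarith) (by linarith)
    have h3 := mul_le_mul_of_nonneg_left h1 h2
    calc 4 * Den = μ * t * p * ((2 * (μ - σ₀)) * (2 * (t - t₀))) := by rw [hDen]; ring
      _ ≤ _ := h3
      _ = 9 * (μ * μ * t * t * p) := by ring
  have hDen0 : 0 < Den := by
    have : 0 < μ * μ * t * t * p := by positivity
    linarith
  have hmt : 0 ≤ μ * μ * t ^ 2 := by positivity
  rw [← hnum, ← hDen] at key
  constructor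
  · have h1 : 2 * Den ≤ 9 * K * μ * Δ * Den := by
      have h3 : p ≤ K * p * p := by
        calc p = 1 * p := by ring
          _ ≤ _ := mul_le_mul_of_nonneg_right hp1 hp.le
      have h4 : μ * μ * t ^ 2 * p ≤ μ * μ * t ^ 2 * (K * (p ^ 2 + B)) := by
        apply mul_le_mul_of_nonneg_left _ hmt
        have : 0 ≤ K * B := by positivity
        calc p ≤ K * p * p := h3
          _ ≤ K * (p ^ 2 + B) := by linarith
      have h5 : K * μ * (μ * t ^ 2 * (p ^ 2 + B)) ≤ K * μ * (2 * num) :=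
        mul_le_mul_of_nonneg_left hlo (by positivity)
      have e : 9 * K * μ * Δ * Den = 9 * K * μ * num := by rw [← key]; ring
      rw [e]
      linarith
    exact le_of_mul_le_mul_right h1 hDen0
  · have h1 : μ * Δ * Den ≤ 12 * K ^ 2 * Den := by
      have h3 : p ^ 2 + B ≤ 2 * K ^ 2 * p := by
        have h4 : p * p ≤ K * p := mul_le_mul_of_nonneg_right hp2 hp.le
        have h5 : K * p ≤ K ^ 2 * p := by
          apply mul_le_mul_of_nonneg_right _ hp.le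
          calc K = K * 1 := by ring
            _ ≤ K * K := mul_le_mul_of_nonneg_left hK hK0.le
            _ = K ^ 2 := by ring
        have h6 : B ≤ K ^ 2 * p := by
          calc B ≤ K * 1 := by linarith
            _ ≤ K * (K * p) := mul_le_mul_of_nonneg_left hp1 hK0.le
            _ = K ^ 2 * p := by ring
        linarith
      have h4 : μ * μ * t ^ 2 * (p ^ 2 + B) ≤ μ * μ * t ^ 2 * (2 * K ^ 2 * p) :=
        mul_le_mul_of_nonneg_left h3 hmt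
      have h5 : μ * (2 * num) ≤ μ * (3 * (μ * t ^ 2 * (p ^ 2 + B))) :=
        mul_le_mul_of_nonneg_left hhi hμ0.le
      have h6 : K ^ 2 * (μ * μ * t * t * p) ≤ K ^ 2 * (4 * Den) :=
        mul_le_mul_of_nonneg_left hDlo (by positivity)
      have e : μ * Δ * Den = μ * num := by rw [← key]; ring
      rw [e]
      linarith
    exact le_of_mul_le_mul_right h1 hDen0

theorem step_t {A B c t s t₀ s₀ K μ σ₀ σ₁ p : ℚ}
    (hσ₀ : σ₀ = 1 ∨ σ₀ = -1) (hσ₁ : σ₁ = 1 ∨ σ₁ = -1) (hK : 1 ≤ K)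
    (hA : 0 < A) (hA' : A ≤ K) (hB : 0 < B) (hB' : B ≤ K)
    (ht : 0 < t) (ht' : 1 ≤ K * t) (hp : 0 < p) (hp1 : 1 ≤ K * p) (hp2 : p ≤ K)
    (hs : s = σ₁ * p) (h1 : On A B c t s) (h0 : On A B c t₀ s₀)
    (h0t : 2 * |t₀| ≤ t) (hμ : 4 * K ^ 3 ≤ μ) (hm : s - s₀ = -σ₀ * μ * (t - t₀)) :
    ∃ t₃ s₃ : ℚ, On A B c t₃ s₃ ∧ 2 ≤ 9 * K * μ * (σ₀ * σ₁ * (t₃ - t)) ∧
      μ * (σ₀ * σ₁ * (t₃ - t)) ≤ 12 * K ^ 2 := by
  have hσ₁2 : σ₁ ^ 2 = 1 := by rcases hσ₁ with h | h <;> rw [h] <;> norm_num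
  have hK0 : 0 < K := by linarith
  have hK2 : 1 ≤ K ^ 2 := one_le_pow₀ hK
  have hK3 : 1 ≤ K ^ 3 := one_le_pow₀ hK
  have hμ0 : 0 < μ := lt_of_lt_of_le (by positivity) hμ
  have hne : t ≠ t₀ := by
    rintro rfl
    rw [abs_of_pos ht] at h0t
    linarith
  have htt1 : t ≤ 2 * (t - t₀) := by linarith [le_abs_self t₀]
  have htt2 : 2 * (t - t₀) ≤ 3 * t := by linarith [neg_abs_le t₀]
  obtain ⟨m, hmdef⟩ : ∃ m : ℚ, m = -σ₀ * μ := ⟨_, rfl⟩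
  obtain ⟨k, hk⟩ : ∃ k : ℚ, k = s - m * t := ⟨_, rfl⟩
  have hm0 : m ≠ 0 := by
    rw [hmdef]
    exact mul_ne_zero (neg_ne_zero.mpr (by rcases hσ₀ with h | h <;> rw [h] <;> norm_num)) hμ0.ne'
  have hab : 1 + m ≠ 0 := by
    intro h
    rw [hmdef] at h
    rcases hσ₀ with h' | h' <;> rw [h'] at h <;> linarith
  have hμt : 4 * K ^ 2 ≤ μ * t := by
    have h3 : 4 * K ^ 2 * (1 : ℚ) ≤ 4 * K ^ 2 * (K * t) := mul_le_mul_of_nonneg_left ht' (by positivity)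
    have h4 : 4 * K ^ 3 * t ≤ μ * t := mul_le_mul_of_nonneg_right hμ ht.le
    calc 4 * K ^ 2 = 4 * K ^ 2 * 1 := by ring
      _ ≤ 4 * K ^ 2 * (K * t) := h3
      _ = 4 * K ^ 3 * t := by ring
      _ ≤ _ := h4
  have hpK : p ≤ K ^ 2 := hp2.trans (by
    calc K = K * 1 := by ring
      _ ≤ K * K := mul_le_mul_of_nonneg_left hK hK0.le
      _ = K ^ 2 := by ring)
  have hk0 : k ≠ 0 := by
    intro h
    rw [hk, hmdef, hs] at h
    rcases hσ₀ with h' | h' <;> rcases hσ₁ with h'' | h'' <;> rw [h', h''] at h <;> linarith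
  obtain ⟨ht0', hs0', _⟩ := id h0
  have hden : m * (1 + m) * t * t₀ ≠ 0 :=
    mul_ne_zero (mul_ne_zero (mul_ne_zero hm0 hab) ht.ne') ht0'
  obtain ⟨t₃, ht3⟩ : ∃ t₃ : ℚ, t₃ = A * k / (m * (1 + m) * t * t₀) := ⟨_, rfl⟩
  have ht3ne : t₃ ≠ 0 := by rw [ht3]; exact div_ne_zero (mul_ne_zero hA.ne' hk0) hden
  have h3 : m * (1 + m) * t * t₀ * t₃ = A * k := by
    rw [ht3, mul_comm, div_mul_cancel₀ _ hden]
  have hs1' : s = m * t + k := by rw [hk]; ring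
  have hs0'' : s₀ = m * t₀ + k := by rw [hk, hmdef]; linear_combination -hm
  obtain ⟨hOn, hF⟩ := third h1 h0 hne hB.ne' hs1' hs0'' ht3ne h3
  refine ⟨t₃, m * t₃ + k, hOn, ?_⟩
  refine delta_bounds (Δ := σ₀ * σ₁ * (t₃ - t)) hσ₀ hK hA hA' hB hB' ht ht' hp hp1 hp2 htt1 htt2 hμ ?_
  rw [hmdef, hs] at hF
  have hs2 : (σ₁ * p) ^ 2 = p ^ 2 := by rw [mul_pow, hσ₁2, one_mul]
  rw [hs2] at hF
  rcases hσ₀ with h' | h'
  · rw [h'] at hF ⊢; linear_combination -hF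
  · rw [h'] at hF ⊢; linear_combination hF

end Pool.Agent.H52R
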